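import Pool.Agent.helper49.ELT.Pairs

/-!
# Triangle-free graphs

A triangle-free graph which is unsplit for `(2, b)`, `b ≥ 1`, is `(2 + b)`-colourable: remove a
shortest odd cycle.
-/

set_option linter.unusedSectionVars false

namespace Pool.Agent.helper49.ELT

open Finset Pool.Agent.helper95.ELT

variable {V : Type*} {G : SimpleGraph V}

/-- There is a walk of length `n` from `x` to `y`. -/
def Wk (G : SimpleGraph V) (n : ℕ) (x y : V) : Prop := ∃ p : G.Walk x y, p.length = n

theorem Wk.trans {m n : ℕ} {x y z : V} (h : Wk G m x y) (h' : Wk G n y z) : Wk G (m + n) x z := by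
  obtain ⟨p, hp⟩ := h
  obtain ⟨q, hq⟩ := h'
  exact ⟨p.append q, by rw [SimpleGraph.Walk.length_append, hp, hq]⟩

theorem Wk.symm {n : ℕ} {x y : V} (h : Wk G n x y) : Wk G n y x := by
  obtain ⟨p, hp⟩ := h
  exact ⟨p.reverse, by rw [SimpleGraph.Walk.length_reverse, hp]⟩

theorem Wk.of_adj {x y : V} (h : G.Adj x y) : Wk G 1 x y := ⟨h.toWalk, by simp⟩

/-- A graph without closed walks of odd length is bipartite. -/
theorem exists_odd_closed (h : ¬ ∃ c : V → ℕ, (∀ v, c v < 2) ∧ ∀ u v, G.Adj u v → c u ≠ c v) :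
    ∃ n x, Odd n ∧ Wk G n x x := by
  classical
  by_contra hcon
  push Not at hcon
  apply h
  have hroot : ∀ v : V, ∃ r, G.Reachable r v ∧ r = Quot.out (G.connectedComponentMk v) := by
    intro v
    refine ⟨_, ?_, rfl⟩
    have h1 : G.connectedComponentMk (Quot.out (G.connectedComponentMk v)) =
        G.connectedComponentMk v := Quot.out_eq _
    exact SimpleGraph.ConnectedComponent.exact h1
  choose r hr hr' using hroot
  refine ⟨fun v => G.dist (r v) v % 2, fun v => Nat.mod_lt _ (by norm_num), fun u v huv h1 => ?_⟩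
  have h2 : r u = r v := by
    rw [hr', hr', SimpleGraph.ConnectedComponent.sound huv.reachable]
  obtain ⟨p, hp⟩ := (hr u).exists_walk_length_eq_dist
  obtain ⟨q, hq⟩ := (hr v).exists_walk_length_eq_dist
  have h3 : Wk G (G.dist (r u) u) (r u) u := ⟨p, hp⟩
  have h4 : Wk G (G.dist (r v) v) (r v) v := ⟨q, hq⟩
  rw [← h2] at h4
  have h5 := (h3.trans (Wk.of_adj huv)).trans h4.symm
  refine hcon _ _ ?_ h5
  have h6 : G.dist (r u) u % 2 = G.dist (r v) v % 2 := h1
  rw [← h2] at h6
  rw [Nat.odd_iff]
  omega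

/-- A shortest closed walk of odd length. -/
structure Short (G : SimpleGraph V) (n : ℕ) (c : ℕ → V) : Prop where
  odd : Odd n
  closed : c n = c 0
  adj : ∀ i < n, G.Adj (c i) (c (i + 1))
  min : ∀ m x, Odd m → Wk G m x x → n ≤ m

theorem exists_short (h : ∃ n x, Odd n ∧ Wk G n x x) : ∃ n c, Short G n c := by
  classical
  have h1 : ∃ n, ∃ x, Odd n ∧ Wk G n x x := h
  obtain ⟨x, hn, p, hp⟩ := Nat.find_spec h1
  refine ⟨Nat.find h1, p.getVert, hn, ?_, ?_, ?_⟩
  · rw [← hp, SimpleGraph.Walk.getVert_length, SimpleGraph.Walk.getVert_zero]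
  · intro i hi
    exact p.adj_getVert_succ (by rw [hp]; exact hi)
  · intro m y hm hy
    exact Nat.find_min' h1 ⟨y, hm, hy⟩

namespace Short

variable {n : ℕ} {c : ℕ → V} (hs : Short G n c)

include hs in
theorem seg {i j : ℕ} (hij : i ≤ j) (hj : j ≤ n) : Wk G (j - i) (c i) (c j) := by
  induction j with
  | zero =>
    have : i = 0 := by omega
    subst this
    exact ⟨SimpleGraph.Walk.nil, by simp⟩
  | succ j ih =>
    rcases Nat.lt_or_ge i (j + 1) with h | h
    · have h1 := (ih (by omega) (by omega)).trans (Wk.of_adj (hs.adj j (by omega)))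
      have h2 : j - i + 1 = j + 1 - i := by omega
      rwa [h2] at h1
    · have : i = j + 1 := by omega
      subst this
      exact ⟨SimpleGraph.Walk.nil, by simp⟩

include hs in
theorem shortcut {i j m : ℕ} (hij : i ≤ j) (hj : j ≤ n) (h : Wk G m (c i) (c j)) :
    ((j - i + m) % 2 = 1 ∧ n ≤ j - i + m) ∨ ((j - i + m) % 2 = 0 ∧ j - i ≤ m) := by
  have h1 := hs.odd
  rw [Nat.odd_iff] at h1
  rcases Nat.mod_two_eq_zero_or_one (j - i + m) with h2 | h2
  · right
    refine ⟨h2, ?_⟩
    have h3 := (hs.seg hj le_rfl).trans ((by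
      rw [hs.closed]
      exact hs.seg (Nat.zero_le i) (hij.trans hj) : Wk G (i - 0) (c n) (c i)).trans h)
    have h4 := hs.min _ _ (by rw [Nat.odd_iff]; omega) h3
    omega
  · left
    refine ⟨h2, ?_⟩
    exact hs.min _ _ (by rw [Nat.odd_iff]; omega) ((hs.seg hij hj).trans h.symm)

include hs in
theorem inj {i j : ℕ} (hi : i < n) (hj : j < n) (h : c i = c j) : i = j := by
  wlog hij : i ≤ j generalizing i j
  · exact (this hj hi h.symm (by omega)).symm
  have h1 : Wk G 0 (c i) (c j) := by rw [h]; exact ⟨SimpleGraph.Walk.nil, by simp⟩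
  rcases hs.shortcut hij hj.le h1 with h2 | h2 <;> omega

include hs in
theorem adj_cases {i j : ℕ} (hij : i < j) (hj : j < n) (h : G.Adj (c i) (c j)) :
    j = i + 1 ∨ (i = 0 ∧ j + 1 = n) := by
  rcases hs.shortcut hij.le hj.le (Wk.of_adj h) with h2 | h2 <;> omega

include hs in
theorem nbr_cases {v : V} {i j : ℕ} (hij : i < j) (hj : j < n) (h : G.Adj v (c i))
    (h' : G.Adj v (c j)) : j = i + 2 ∨ j + 2 = i + n := by
  have h1 := hs.odd
  rw [Nat.odd_iff] at h1
  rcases hs.shortcut hij.le hj.le ((Wk.of_adj h.symm).trans (Wk.of_adj h')) with h2 | h2 <;> omega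

end Short

variable [Fintype V] [DecidableEq V]

/-- Removing a shortest odd cycle from a triangle-free graph. -/
theorem exists_robust (h2 : ¬ Col G univ 2) (htri : ∀ K, Cl G K → K.card ≠ 3) :
    ∃ O : Finset V, ¬ Col G O 2 ∧ ∀ C : Finset V, Disjoint O C →
      (∀ u ∈ C, ∀ v ∈ C, ¬ G.Adj u v) → Col G (O ∪ C) 3 := by
  classical
  obtain ⟨n, c, hs⟩ := exists_short (exists_odd_closed (G := G) (fun ⟨c, h, h'⟩ =>
    h2 ⟨c, fun u _ => h u, fun u _ v _ => h' u v⟩))
  have hodd := hs.odd
  rw [Nat.odd_iff] at hodd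
  have hn3 : 3 ≤ n := by
    by_contra hcon
    have h3 : n = 1 := by omega
    have h4 := hs.adj 0 (by omega)
    have h5 := hs.closed
    rw [h3] at h5
    rw [zero_add, h5] at h4
    exact G.loopless.irrefl _ h4
  have hn5 : 5 ≤ n := by
    by_contra hcon
    have h3 : n = 3 := by omega
    have h4 := hs.adj 0 (by omega)
    have h5 := hs.adj 1 (by omega)
    have h6 := hs.adj 2 (by omega)
    have h7 := hs.closed
    rw [h3] at h7
    norm_num at h4 h5 h6
    rw [h7] at h6
    refine htri {c 0, c 1, c 2} ?_ ?_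
    · intro u hu v hv huv
      simp only [mem_insert, mem_singleton] at hu hv
      rcases hu with h | h | h <;> rcases hv with h' | h' | h' <;> rw [h, h'] at huv ⊢
      · exact absurd rfl huv
      · exact h4
      · exact h6.symm
      · exact h4.symm
      · exact absurd rfl huv
      · exact h5
      · exact h6
      · exact h5.symm
      · exact absurd rfl huv
    · rw [card_insert_of_notMem, card_pair h5.ne]
      simp only [mem_insert, mem_singleton, not_or]
      exact ⟨h4.ne, h6.ne'⟩
  set O : Finset V := (range n).image c with hO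
  have hOm : ∀ i < n, c i ∈ O := fun i hi => mem_image_of_mem c (mem_range.2 hi)
  have hOm' : ∀ i ≤ n, c i ∈ O := fun i hi => by
    rcases eq_or_lt_of_le hi with h | h
    · rw [h, hs.closed]; exact hOm 0 (by omega)
    · exact hOm i h
  refine ⟨O, ?_, ?_⟩
  · rintro ⟨f, hf1, hf2⟩
    have h3 : ∀ i ≤ n, f (c i) % 2 = (f (c 0) + i) % 2 := by
      intro i
      induction i with
      | zero => intro _; simp
      | succ i ih =>
        intro hi
        have h4 := ih (by omega)
        have h5 := hf2 (c i) (hOm' i (by omega)) (c (i + 1)) (hOm' _ hi) (hs.adj i (by omega))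
        have h6 := hf1 (c i) (hOm' i (by omega))
        have h7 := hf1 (c (i + 1)) (hOm' _ hi)
        omega
    have h4 := h3 n le_rfl
    rw [hs.closed] at h4
    omega
  · intro C hOC hC
    have hidx : ∀ v ∈ O, ∃ i < n, c i = v := fun v hv => by
      obtain ⟨i, hi, h⟩ := mem_image.1 hv
      exact ⟨i, mem_range.1 hi, h⟩
    choose! idx hidx1 hidx2 using hidx
    have hidx3 : ∀ i < n, idx (c i) = i := fun i hi =>
      hs.inj (hidx1 _ (hOm i hi)) hi (hidx2 _ (hOm i hi))
    set col : ℕ → ℕ := fun i => if i = 0 then 2 else i % 2 with hcol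
    have hcol3 : ∀ i, col i < 3 := fun i => by
      rw [hcol]
      by_cases h : i = 0 <;> simp only [h, if_true, if_false] <;> omega
    have hfree : ∀ v, ∃ k < 3, ∀ i < n, G.Adj v (c i) → col i ≠ k := by
      intro v
      by_contra hcon
      push Not at hcon
      obtain ⟨i₀, hi₀, ha₀, hc₀⟩ := hcon 0 (by norm_num)
      obtain ⟨i₁, hi₁, ha₁, hc₁⟩ := hcon 1 (by norm_num)
      obtain ⟨i₂, hi₂, ha₂, hc₂⟩ := hcon 2 (by norm_num)
      have h3 : i₂ = 0 := by
        by_contra h
        simp only [hcol, h, if_false] at hc₂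
        omega
      have h4 : i₀ ≠ 0 ∧ i₀ % 2 = 0 := by
        by_cases h : i₀ = 0
        · simp [hcol, h] at hc₀
        · simp only [hcol, h, if_false] at hc₀
          exact ⟨h, hc₀⟩
      have h5 : i₁ % 2 = 1 := by
        by_cases h : i₁ = 0
        · simp [hcol, h] at hc₁
        · simp only [hcol, h, if_false] at hc₁
          exact hc₁
      subst h3
      have h6 := hs.nbr_cases (i := 0) (j := i₀) (by omega) hi₀ ha₂ ha₀
      have h7 := hs.nbr_cases (i := 0) (j := i₁) (by omega) hi₁ ha₂ ha₁
      rcases lt_trichotomy i₀ i₁ with h | h | h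
      · have h8 := hs.nbr_cases h hi₁ ha₀ ha₁
        omega
      · omega
      · have h8 := hs.nbr_cases h hi₀ ha₁ ha₀
        omega
    choose d hd1 hd2 using hfree
    refine ⟨fun v => if v ∈ O then col (idx v) else d v, fun v _ => ?_, fun u hu v hv huv => ?_⟩
    · by_cases h : v ∈ O
      · simp only [h, if_true]; exact hcol3 _
      · simp only [h, if_false]; exact hd1 v
    · have hno : ∀ x ∈ O ∪ C, x ∉ O → x ∈ C := fun x hx h => (mem_union.1 hx).resolve_left h
      by_cases h : u ∈ O <;> by_cases h' : v ∈ O <;> simp only [h, h', if_true, if_false]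
      · have h3 := hidx1 u h
        have h4 := hidx1 v h'
        have h5 := hidx2 u h
        have h6 := hidx2 v h'
        have key : ∀ i j, i < j → j < n → G.Adj (c i) (c j) → col i ≠ col j := by
          intro i j hij hj hadj
          have hj0 : j ≠ 0 := by omega
          rcases hs.adj_cases hij hj hadj with h7 | h7
          · by_cases hi0 : i = 0
            · simp only [hcol, hi0, hj0, if_true, if_false]
              omega
            · simp only [hcol, hi0, hj0, if_false]
              omega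
          · simp only [hcol, h7.1, hj0, if_true, if_false]
            omega
        rcases lt_trichotomy (idx u) (idx v) with h7 | h7 | h7
        · exact key _ _ h7 h4 (by rw [h5, h6]; exact huv)
        · exfalso
          rw [← h5, ← h6, h7] at huv
          exact G.loopless.irrefl _ huv
        · exact (key _ _ h7 h3 (by rw [h5, h6]; exact huv.symm)).symm
      · have h3 := hd2 v (idx u) (hidx1 u h) (by rw [hidx2 u h]; exact huv.symm)
        exact h3
      · have h3 := hd2 u (idx v) (hidx1 v h') (by rw [hidx2 v h']; exact huv)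
        exact h3.symm
      · exact absurd huv (hC u (hno u hu h) v (hno v hv h'))

theorem false_of_triangleFree {b : ℕ} (hb : 1 ≤ b)
    (hU : ∀ S : Finset V, Col G S 2 ∨ Col G Sᶜ b) (hG : ¬ Col G univ (2 + b))
    (htri : ∀ K, Cl G K → K.card ≠ 3) : False := by
  classical
  obtain ⟨O, h1, h2⟩ := exists_robust (G := G) (fun h => hG (h.mono_num (by omega))) htri
  obtain ⟨c, hc1, hc2⟩ := (hU O).resolve_left h1
  set C : Finset V := Oᶜ.filter fun v => c v = 0 with hC
  have h3 := h2 C (disjoint_left.2 fun v hv hv' => mem_compl.1 (mem_filter.1 hv').1 hv) (by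
    intro u hu v hv huv
    have hu' := mem_filter.1 hu
    have hv' := mem_filter.1 hv
    exact hc2 u hu'.1 v hv'.1 huv (hu'.2.trans hv'.2.symm))
  have h4 : Col G (Oᶜ \ C) (b - 1) := by
    refine ⟨fun v => c v - 1, fun u hu => ?_, fun u hu v hv huv => ?_⟩
    · have h5 := mem_sdiff.1 hu
      have h6 := hc1 u h5.1
      have h7 : c u ≠ 0 := fun h => h5.2 (mem_filter.2 ⟨h5.1, h⟩)
      show c u - 1 < b - 1
      omega
    · have h5 := mem_sdiff.1 hu
      have h6 := mem_sdiff.1 hv
      have h7 : c u ≠ 0 := fun h => h5.2 (mem_filter.2 ⟨h5.1, h⟩)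
      have h8 : c v ≠ 0 := fun h => h6.2 (mem_filter.2 ⟨h6.1, h⟩)
      have h9 := hc2 u h5.1 v h6.1 huv
      show c u - 1 ≠ c v - 1
      omega
  refine hG (((col_union h3 h4).mono fun v _ => ?_).mono_num (by omega))
  by_cases h5 : v ∈ O
  · exact mem_union_left _ (mem_union_left _ h5)
  · by_cases h6 : v ∈ C
    · exact mem_union_left _ (mem_union_right _ h6)
    · exact mem_union_right _ (mem_sdiff.2 ⟨mem_compl.2 h5, h6⟩)

end Pool.Agent.helper49.ELT
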