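import Pool.Agent.helper95.ELT.Join

/-!
# Cliques in graphs which cannot be split

Assume that the complement of each clique with `a + 1` vertices is `b`-colourable. Main lemma
`exists_dense`: if such a graph is not `(a + b)`-colourable, has no clique with `a + b + 1`
vertices and has a clique with `a + 1` vertices, then each set `U` which meets all these cliques
contains a nonempty set `B` such that each vertex of `B` has at least `b` neighbours in `B`, and
`B` contains no clique with `b + 1` vertices.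
-/

set_option linter.unusedSectionVars false

namespace Pool.Agent.helper49.ELT

open Finset Pool.Agent.helper95.ELT

variable {V : Type*} [Fintype V] [DecidableEq V] {G : SimpleGraph V}

/-- `K` is a clique. -/
def Cl (G : SimpleGraph V) (K : Finset V) : Prop := ∀ u ∈ K, ∀ v ∈ K, u ≠ v → G.Adj u v

theorem Cl.mono {K L : Finset V} (h : Cl G L) (hKL : K ⊆ L) : Cl G K :=
  fun u hu v hv => h u (hKL hu) v (hKL hv)

theorem col_card_le {S : Finset V} {m : ℕ} {c : V → ℕ} {R : Finset ℕ}
    (hc : ∀ u ∈ S, ∀ v ∈ S, G.Adj u v → c u ≠ c v) (hR : ∀ u ∈ S, c u ∈ R) (hm : R.card ≤ m) :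
    Col G S m := by
  refine (col_card_image hc).mono_num (le_trans (card_le_card ?_) hm)
  intro i hi
  obtain ⟨u, hu, rfl⟩ := mem_image.1 hi
  exact hR u hu

section unsplit

variable {a b : ℕ} (hC : ∀ S : Finset V, Cl G S → S.card = a + 1 → Col G Sᶜ b)
  (hG : ¬ Col G univ (a + b))

include hC hG in
/-- Each colour class of the complement of an `(a + 1)`-clique `S` contains a vertex complete
to `S`. -/
theorem exists_complete {S : Finset V} (hS : Cl G S) (hcard : S.card = a + 1) :
    ∃ c : V → ℕ, (∀ i < b, ∃ g ∉ S, c g = i ∧ ∀ u ∈ S, G.Adj g u) := by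
  classical
  obtain ⟨c, hc1, hc2⟩ := hC S hS hcard
  refine ⟨c, fun i hi => ?_⟩
  by_contra hcon
  push Not at hcon
  apply hG
  set C : Finset V := Sᶜ.filter fun v => c v = i with hCdef
  -- colour `S ∪ C` with the vertices of `S`
  have hC1 : ∀ v ∈ C, ∃ u ∈ S, ¬ G.Adj v u := fun v hv => by
    have h1 := mem_filter.1 hv
    exact hcon v (mem_compl.1 h1.1) h1.2
  choose! f hfS hf using hC1
  have hCS : ∀ v ∈ C, v ∉ S := fun v hv => mem_compl.1 (mem_filter.1 hv).1
  let e := Fintype.equivFin V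
  have he : ∀ u v : V, (e u : ℕ) = e v → u = v := fun u v h => e.injective (Fin.ext h)
  have h1 : Col G (S ∪ C) (a + 1) := by
    refine col_card_le (c := fun v => if v ∈ S then (e v : ℕ) else e (f v))
      (R := S.image fun v => (e v : ℕ)) ?_ ?_ (card_image_le.trans hcard.le)
    · intro u hu v hv huv
      by_cases h2 : u ∈ S <;> by_cases h3 : v ∈ S <;> simp only [h2, h3, if_true, if_false]
      · exact fun h => huv.ne (he _ _ h)
      · have h4 := (mem_union.1 hv).resolve_left h3
        intro h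
        rw [he _ _ h] at huv
        exact hf v h4 huv.symm
      · have h4 := (mem_union.1 hu).resolve_left h2
        intro h
        rw [← he _ _ h] at huv
        exact hf u h4 huv
      · have h4 := mem_filter.1 ((mem_union.1 hu).resolve_left h2)
        have h5 := mem_filter.1 ((mem_union.1 hv).resolve_left h3)
        exact absurd (h4.2.trans h5.2.symm) (hc2 u h4.1 v h5.1 huv)
    · intro u hu
      by_cases h2 : u ∈ S
      · simp only [h2, if_true]
        exact mem_image_of_mem _ h2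
      · simp only [h2, if_false]
        exact mem_image_of_mem (fun v => (e v : ℕ)) (hfS u ((mem_union.1 hu).resolve_left h2))
  have h2 : Col G (Sᶜ \ C) (b - 1) := by
    refine col_card_le (c := c) (R := (range b).erase i) ?_ ?_ ?_
    · intro u hu v hv
      exact hc2 u (mem_sdiff.1 hu).1 v (mem_sdiff.1 hv).1
    · intro u hu
      have h3 := mem_sdiff.1 hu
      refine mem_erase.2 ⟨fun h => h3.2 (mem_filter.2 ⟨h3.1, h⟩), mem_range.2 (hc1 u h3.1)⟩
    · rw [card_erase_of_mem (mem_range.2 hi), card_range]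
  refine ((col_union h1 h2).mono ?_).mono_num (by omega)
  intro v _
  by_cases h3 : v ∈ S
  · exact mem_union_left _ (mem_union_left _ h3)
  · by_cases h4 : c v = i
    · exact mem_union_left _ (mem_union_right _ (mem_filter.2 ⟨mem_compl.2 h3, h4⟩))
    · exact mem_union_right _ (mem_sdiff.2 ⟨mem_compl.2 h3, fun h => h4 (mem_filter.1 h).2⟩)

include hC hG in
theorem exists_dense (hfree : ∀ K, Cl G K → K.card ≠ a + b + 1)
    {K₀ : Finset V} (hK₀ : Cl G K₀) (hK₀c : K₀.card = a + 1) {U : Finset V}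
    (hmeet : ∀ S, Cl G S → S.card = a + 1 → ∃ v ∈ S, v ∈ U) :
    ∃ B ⊆ U, B.Nonempty ∧ (∀ y ∈ B, ∃ A ⊆ B, b ≤ A.card ∧ ∀ g ∈ A, G.Adj y g) ∧
      ∀ Q ⊆ B, Cl G Q → Q.card ≠ b + 1 := by
  classical
  obtain ⟨F, hF, hmax⟩ := exists_max_image
    (univ.filter fun F : Finset V => Uᶜ ⊆ F ∧ ∀ S ⊆ F, Cl G S → S.card ≠ a + 1) Finset.card
    ⟨Uᶜ, by
      simp only [mem_filter, mem_univ, true_and, Subset.refl]
      intro S hS h1 h2
      obtain ⟨v, hv, hvU⟩ := hmeet S h1 h2
      exact mem_compl.1 (hS hv) hvU⟩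
  simp only [mem_filter, mem_univ, true_and] at hF hmax
  have h1 : ∃ z, z ∉ F := by
    by_contra hcon
    push Not at hcon
    exact hF.2 K₀ (fun v _ => hcon v) hK₀ hK₀c
  obtain ⟨z, hz⟩ := h1
  have h2 : ∃ S ⊆ insert z F, Cl G S ∧ S.card = a + 1 := by
    by_contra hcon
    push Not at hcon
    have := hmax (insert z F) ⟨hF.1.trans (subset_insert _ _), hcon⟩
    rw [card_insert_of_notMem hz] at this
    omega
  obtain ⟨S, hS, hScl, hSc⟩ := h2
  have hzS : z ∈ S := by
    by_contra hcon
    refine hF.2 S (fun v hv => ?_) hScl hSc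
    rcases mem_insert.1 (hS hv) with h | h
    · exact absurd (h ▸ hv) hcon
    · exact h
  set S₀ : Finset V := S.erase z with hS₀
  have hS₀F : S₀ ⊆ F := fun v hv => by
    have h3 := mem_erase.1 hv
    exact (mem_insert.1 (hS h3.2)).resolve_left h3.1
  have hS₀cl : Cl G S₀ := hScl.mono (erase_subset _ _)
  have hS₀c : S₀.card = a := by rw [hS₀, card_erase_of_mem hzS, hSc]; rfl
  set B : Finset V := univ.filter fun g => ∀ u ∈ S₀, G.Adj g u with hB
  have hBmem : ∀ g, g ∈ B ↔ ∀ u ∈ S₀, G.Adj g u := fun g => by simp [hB]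
  have hBS : ∀ g ∈ B, g ∉ S₀ := fun g hg h => G.loopless.irrefl _ ((hBmem g).1 hg g h)
  have hcl : ∀ g ∈ B, Cl G (insert g S₀) := fun g hg => clique_insert hS₀cl ((hBmem g).1 hg)
  have hclc : ∀ g ∈ B, (insert g S₀).card = a + 1 := fun g hg => by
    rw [card_insert_of_notMem (hBS g hg), hS₀c]
  have hBF : ∀ g ∈ B, g ∉ F := fun g hg h =>
    hF.2 (insert g S₀) (insert_subset h hS₀F) (hcl g hg) (hclc g hg)
  refine ⟨B, fun g hg => ?_, ⟨z, ?_⟩, fun y hy => ?_, fun Q hQ hQcl hQc => ?_⟩
  · by_contra h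
    exact hBF g hg (hF.1 (mem_compl.2 h))
  · rw [hBmem]
    intro u hu
    have h3 := mem_erase.1 hu
    exact hScl z hzS u h3.2 (Ne.symm h3.1)
  · obtain ⟨c, hc⟩ := exists_complete hC hG (hcl y hy) (hclc y hy)
    have h3 : range b ⊆ (B.filter fun g => G.Adj y g).image c := by
      intro i hi
      obtain ⟨g, -, hgi, hg⟩ := hc i (mem_range.1 hi)
      refine mem_image.2 ⟨g, mem_filter.2 ⟨(hBmem g).2 fun u hu => hg u (mem_insert_of_mem hu),
        (hg y (mem_insert_self _ _)).symm⟩, hgi⟩
    have h4 := (card_le_card h3).trans card_image_le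
    rw [card_range] at h4
    exact ⟨_, filter_subset _ _, h4, fun g hg => (mem_filter.1 hg).2⟩
  · have hd : Disjoint Q S₀ := disjoint_left.2 fun g hg => hBS g (hQ hg)
    refine hfree (Q ∪ S₀) ?_ (by rw [card_union_of_disjoint hd, hQc, hS₀c]; omega)
    intro u hu v hv huv
    rcases mem_union.1 hu with h | h <;> rcases mem_union.1 hv with h' | h'
    · exact hQcl u h v h' huv
    · exact (hBmem u).1 (hQ h) v h'
    · exact ((hBmem v).1 (hQ h') u h).symm
    · exact hS₀cl u h v h' huv

include hC hG in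
/-- No clique meets all cliques with `a + 1` vertices. -/
theorem exists_disjoint (hfree : ∀ K, Cl G K → K.card ≠ a + b + 1)
    {K₀ : Finset V} (hK₀ : Cl G K₀) (hK₀c : K₀.card = a + 1) {U : Finset V} (hUcl : Cl G U) :
    ∃ S, Cl G S ∧ S.card = a + 1 ∧ Disjoint S U := by
  classical
  by_contra hcon
  push Not at hcon
  obtain ⟨B, hBU, ⟨y, hy⟩, h1, h2⟩ := exists_dense hC hG hfree hK₀ hK₀c (U := U) (by
    intro S hS hSc
    obtain ⟨v, hv1, hv2⟩ := not_disjoint_iff.1 (hcon S hS hSc)
    exact ⟨v, hv1, hv2⟩)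
  obtain ⟨A, hA, hAb, hyA⟩ := h1 y hy
  have h4 : b + 1 ≤ B.card := by
    have h5 : A.card < B.card := card_lt_card
      ((ssubset_iff_of_subset hA).2 ⟨y, hy, fun h => G.loopless.irrefl _ (hyA y h)⟩)
    omega
  obtain ⟨Q, hQ, hQc⟩ := exists_subset_card_eq h4
  exact h2 Q hQ (hUcl.mono (hQ.trans hBU)) hQc

include hC hG in
/-- There is no clique with `b + 1` vertices. -/
theorem no_clique (hfree : ∀ K, Cl G K → K.card ≠ a + b + 1) {K₀ : Finset V} (hK₀ : Cl G K₀)
    (hK₀c : K₀.card = a + 1) {K : Finset V} (hK : Cl G K) : K.card ≤ b := by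
  classical
  by_contra hcon
  push Not at hcon
  obtain ⟨S, hS, hSc, hd⟩ := exists_disjoint hC hG hfree hK₀ hK₀c hK
  exact not_col_of_clique hK hcon ((hC S hS hSc).mono fun v hv => mem_compl.2 fun h' =>
    disjoint_left.1 hd h' hv)

include hC hG in
/-- The fractional bound in the presence of a clique with `a + 1` vertices. -/
theorem weight_le {w : V → ℝ} (hw : FracClique G w)
    (hfree : ∀ K, Cl G K → K.card ≠ a + b + 1)
    {K₀ : Finset V} (hK₀ : Cl G K₀) (hK₀c : K₀.card = a + 1) :
    ∑ v, w v ≤ b + (a + 1) / 2 := by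
  classical
  obtain ⟨S, hS, hSc, hd⟩ := exists_disjoint hC hG hfree hK₀ hK₀c
    (U := univ.filter fun v => 1 / 2 < w v) (by
      intro u hu v hv huv
      rw [mem_filter] at hu hv
      exact hw.adj huv (by linarith [hu.2, hv.2]))
  have h2 := hw.sum_le (hC S hS hSc)
  have h3 := sum_add_sum_compl S w
  have h4 : ∑ v ∈ S, w v ≤ ∑ _v ∈ S, (1 / 2 : ℝ) := by
    refine sum_le_sum fun v hv => ?_
    by_contra hcon
    exact disjoint_left.1 hd hv (by simpa using hcon)
  rw [sum_const, hSc, nsmul_eq_mul] at h4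
  push_cast at h4
  linarith

end unsplit

end Pool.Agent.helper49.ELT
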