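import Pool.Agent.helper49.ELT.MatchCol

/-!
# Double-critical graphs and fractional cliques

`false_of_double`: let `Y` be a vertex set which is not `(b + 1)`-colourable, contains no clique
with `b + 2` vertices and becomes `b`-colourable if the ends of an arbitrary edge are removed. Then
there is no fractional clique such that each edge of `Y` has weight more than `2/3`.
-/

set_option linter.unusedSectionVars false

namespace Pool.Agent.helper49.ELT

open Finset Pool.Agent.helper95.ELT

variable {V : Type*} [Fintype V] [DecidableEq V] {G : SimpleGraph V} {Y : Finset V} {b : ℕ}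
  {w : V → ℝ}

theorem col_of_card_le {S : Finset V} {m : ℕ} (h : S.card ≤ m) : Col G S m := by
  classical
  let e := Fintype.equivFin V
  refine col_card_le (c := fun v => (e v : ℕ)) (R := S.image fun v => (e v : ℕ)) ?_ ?_
    (card_image_le.trans h)
  · intro u _ v _ huv h1
    exact huv.ne (e.injective (Fin.ext h1))
  · intro u hu
    exact mem_image_of_mem (fun v => (e v : ℕ)) hu

theorem false_of_cl (hG : ¬ Col G Y (b + 1)) (hfree : ∀ K ⊆ Y, Cl G K → K.card ≠ b + 2)
    (hY : Cl G Y) : False := by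
  have h1 : b + 2 ≤ Y.card := by
    by_contra hcon
    exact hG (col_of_card_le (by omega))
  obtain ⟨K, hK, hKc⟩ := exists_subset_card_eq h1
  exact hfree K hK (hY.mono hK) hKc

theorem sum_three_le (hw : FracClique G w) {x y z : V} (hxy : x ≠ y) (hxz : x ≠ z) (hyz : y ≠ z)
    (h1 : ¬ G.Adj x y) (h2 : ¬ G.Adj x z) (h3 : ¬ G.Adj y z) : w x + w y + w z ≤ 1 := by
  have h4 := hw.indep {x, y, z} (by
    intro p hp q hq hpq
    simp only [mem_insert, mem_singleton] at hp hq
    rcases hp with h | h | h <;> rcases hq with h' | h' | h' <;> rw [h, h'] at hpq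
    · exact G.loopless.irrefl _ hpq
    · exact h1 hpq
    · exact h2 hpq
    · exact h1 hpq.symm
    · exact G.loopless.irrefl _ hpq
    · exact h3 hpq
    · exact h2 hpq.symm
    · exact h3 hpq.symm
    · exact G.loopless.irrefl _ hpq)
  rw [sum_insert (by simp [hxy, hxz]), sum_pair hyz] at h4
  linarith

theorem card_sdiff_erase {H : Finset V} {x : V} (hx : x ∈ H) : (H \ H.erase x).card = 1 := by
  rw [card_sdiff_of_subset (erase_subset _ _), card_erase_of_mem hx]
  have : 0 < H.card := card_pos.2 ⟨x, hx⟩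
  omega

theorem card_sdiff_erase_erase {H : Finset V} {x y : V} (hx : x ∈ H) (hy : y ∈ H) (hxy : x ≠ y) :
    (H \ (H.erase x).erase y).card = 2 := by
  have h1 : y ∈ H.erase x := mem_erase.2 ⟨hxy.symm, hy⟩
  rw [card_sdiff_of_subset ((erase_subset _ _).trans (erase_subset _ _)), card_erase_of_mem h1,
    card_erase_of_mem hx]
  have h2 : 0 < H.card := card_pos.2 ⟨x, hx⟩
  have h3 : 0 < (H.erase x).card := card_pos.2 ⟨y, h1⟩
  rw [card_erase_of_mem hx] at h3
  omega

theorem image_card_le {S : Finset V} {c : V → ℕ} {m : ℕ} (h : ∀ v ∈ S, c v < m) :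
    (S.image c).card ≤ m := by
  have h1 : S.image c ⊆ range m := fun i hi => by
    obtain ⟨v, hv, rfl⟩ := mem_image.1 hi
    exact mem_range.2 (h v hv)
  have h2 := card_le_card h1
  rwa [card_range] at h2

theorem image_card_lt {S : Finset V} {c : V → ℕ} {m i : ℕ} (h : ∀ v ∈ S, c v < m) (hi : i < m)
    (hne : ∀ v ∈ S, c v ≠ i) : (S.image c).card + 1 ≤ m := by
  have h1 : S.image c ⊆ (range m).erase i := fun j hj => by
    obtain ⟨v, hv, rfl⟩ := mem_image.1 hj
    exact mem_erase.2 ⟨hne v hv, mem_range.2 (h v hv)⟩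
  have h2 := card_le_card h1
  rw [card_erase_of_mem (mem_range.2 hi), card_range] at h2
  omega

/-- The case without light vertices. -/
theorem false_of_pairs' (hG : ¬ Col G Y (b + 1)) (hfree : ∀ K ⊆ Y, Cl G K → K.card ≠ b + 2)
    (hE : ∀ x ∈ Y, ∀ y ∈ Y, G.Adj x y → Col G ((Y.erase x).erase y) b)
    (hnb : ∀ x ∈ Y, ∃ y ∈ Y, G.Adj x y)
    (hα : ∀ x ∈ Y, ∀ y ∈ Y, ∀ z ∈ Y, x ≠ y → x ≠ z → y ≠ z → ¬ G.Adj x z → ¬ G.Adj y z →
      G.Adj x y) : False := by
  classical
  have hmin : ∀ f : V → V, Mt G Y f → 2 * (b + 2) ≤ Y.card + (Ex Y f).card :=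
    fun f hf => hf.le_of_not_col hG
  have h2 : ∀ x ∈ Y, ∀ y ∈ Y, G.Adj x y →
      ∃ f, Mt G Y f ∧ Y.card + (Ex Y f).card ≤ 2 * (b + 2) ∧ x ∈ Ex Y f ∧ y ∈ Ex Y f := by
    intro x hx y hy hxy
    obtain ⟨c, h1, h2⟩ := hE x hx y hy hxy
    obtain ⟨f, hf, hfo, -, -, hfc⟩ := exists_mt hα
      ((erase_subset _ _).trans (erase_subset _ _)) h2
    refine ⟨f, hf, ?_, mem_Ex.2 ⟨hx, hfo x (by simp)⟩, mem_Ex.2 ⟨hy, hfo y (by simp)⟩⟩
    rw [card_sdiff_erase_erase hx hy hxy.ne] at hfc
    have := image_card_le h1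
    omega
  refine false_of_cl hG hfree (complete_of_matchings hmin (fun x hx => ?_) h2 hα)
  obtain ⟨y, hy, hxy⟩ := hnb x hx
  obtain ⟨f, h3, h4, h5, -⟩ := h2 x hx y hy hxy
  exact ⟨f, h3, h4, h5⟩

theorem false_of_double (hw : FracClique G w) (hG : ¬ Col G Y (b + 1))
    (hfree : ∀ K ⊆ Y, Cl G K → K.card ≠ b + 2)
    (hE : ∀ x ∈ Y, ∀ y ∈ Y, G.Adj x y → Col G ((Y.erase x).erase y) b)
    (hnb : ∀ x ∈ Y, ∃ y ∈ Y, G.Adj x y)
    (h23 : ∀ x ∈ Y, ∀ y ∈ Y, G.Adj x y → 2 / 3 < w x + w y) : False := by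
  classical
  set H : Finset V := Y.filter fun v => 1 / 3 < w v with hH
  set J : Finset V := Y.filter fun v => ¬ 1 / 3 < w v with hJdef
  have hHm : ∀ v, v ∈ H ↔ v ∈ Y ∧ 1 / 3 < w v := fun v => by simp [hH]
  have hJm : ∀ v, v ∈ J ↔ v ∈ Y ∧ w v ≤ 1 / 3 := fun v => by simp [hJdef]
  have hHY : H ⊆ Y := filter_subset _ _
  have hJY : J ⊆ Y := filter_subset _ _
  have hJH : ∀ v ∈ J, v ∉ H := fun v hv hv' => by
    linarith [((hJm v).1 hv).2, ((hHm v).1 hv').2]
  have hHJ : ∀ v ∈ Y, v ∉ H → v ∈ J := fun v hv hv' => by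
    rw [hHm] at hv'
    push Not at hv'
    exact (hJm v).2 ⟨hv, hv' hv⟩
  have hY : Y ⊆ H ∪ J := fun v hv => by
    by_cases h : v ∈ H
    · exact mem_union_left _ h
    · exact mem_union_right _ (hHJ v hv h)
  have hα : ∀ x ∈ H, ∀ y ∈ H, ∀ z ∈ H, x ≠ y → x ≠ z → y ≠ z → ¬ G.Adj x z → ¬ G.Adj y z →
      G.Adj x y := by
    intro x hx y hy z hz hxy hxz hyz h1 h2
    by_contra h3
    have := sum_three_le hw hxy hxz hyz h3 h1 h2
    linarith [((hHm x).1 hx).2, ((hHm y).1 hy).2, ((hHm z).1 hz).2]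
  have hJ : ∀ u ∈ J, ∀ v ∈ J, ¬ G.Adj u v := fun u hu v hv huv => by
    have hu' := (hJm u).1 hu
    have hv' := (hJm v).1 hv
    linarith [h23 u hu'.1 v hv'.1 huv]
  rcases J.eq_empty_or_nonempty with hJe | hJne
  · have hYH : Y = H := Subset.antisymm (fun v hv => by
      by_contra h
      have := hHJ v hv h
      rw [hJe] at this
      exact notMem_empty _ this) hHY
    rw [← hYH] at hα
    exact false_of_pairs' hG hfree hE hnb hα
  · obtain ⟨u, hu, humin⟩ := exists_min_image J w hJne
    have huY := hJY hu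
    have hmu : ∀ v ∈ Y, w u ≤ w v := fun v hv => by
      by_cases h : v ∈ H
      · linarith [((hHm v).1 h).2, ((hJm u).1 hu).2]
      · exact humin v (hHJ v hv h)
    set B : Finset V := Y.filter fun v => G.Adj u v with hB
    have hBm : ∀ v, v ∈ B ↔ v ∈ Y ∧ G.Adj u v := fun v => by simp [hB]
    have hBH : B ⊆ H := fun v hv => by
      by_contra h
      exact hJ u hu v (hHJ v ((hBm v).1 hv).1 h) ((hBm v).1 hv).2
    have hpure : ∀ a ∈ B, ∀ p ∈ H, ∀ z ∈ Y, a ≠ p → a ≠ z → p ≠ z → ¬ G.Adj a p →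
        ¬ G.Adj a z → ¬ G.Adj p z → False := by
      intro a ha p hp z hz h1 h2 h3 h4 h5 h6
      have h7 := sum_three_le hw h1 h2 h3 h4 h5 h6
      have h8 := h23 u huY a ((hBm a).1 ha).1 ((hBm a).1 ha).2
      linarith [((hHm p).1 hp).2, hmu z hz]
    have hJ1 : Col G J 1 := ⟨fun _ => 0, fun _ _ => zero_lt_one, fun x hx y hy hxy =>
      absurd hxy (hJ x hx y hy)⟩
    have hHb : ¬ Col G H b := fun h => hG ((col_union h hJ1).mono hY)
    have hmin : ∀ f : V → V, Mt G H f → 2 * (b + 1) ≤ H.card + (Ex H f).card :=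
      fun f hf => hf.le_of_not_col hHb
    -- Step A
    have hA : ∀ x ∈ B, ∃ f : V → V, Mt G H f ∧ H.card + (Ex H f).card ≤ 2 * (b + 1) ∧
        x ∈ Ex H f ∧ (∀ v ∈ Ex H f, v ∈ B) ∧ (∀ v ∈ H, v ∉ B → f v ∈ B) ∧
        ∃ φ : V → V, ∀ z ∈ J, z ≠ u → φ z ∈ Ex H f ∧ φ z ≠ x ∧ ¬ G.Adj z (φ z) := by
      intro x hx
      have hxY := ((hBm x).1 hx).1
      have hux := ((hBm x).1 hx).2
      obtain ⟨c, h1, h2⟩ := hE u huY x hxY hux
      have hcl : ∀ v ∈ (Y.erase u).erase x, ∃ p ∈ B, p ≠ x ∧ c p = c v := by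
        intro v hv
        by_contra hcon
        push Not at hcon
        apply hG
        have hin : ∀ z ∈ Y, z ≠ u → z ≠ x → z ∈ (Y.erase u).erase x := fun z hz h h' =>
          mem_erase.2 ⟨h', mem_erase.2 ⟨h, hz⟩⟩
        have hi := h1 v hv
        have key : ∀ z ∈ Y, z ≠ u → z ≠ x → G.Adj u z → c z ≠ c v := fun z hz h h' h3 =>
          hcon z ((hBm z).2 ⟨hz, h3⟩) h'
        refine ⟨fun z => if z = u then c v else if z = x then b else c z, fun z hz => ?_,
          fun z hz z' hz' hzz => ?_⟩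
        · by_cases h3 : z = u
          · simp only [h3, if_true]
            omega
          · by_cases h4 : z = x
            · simp only [h4, if_neg hux.ne', if_true]
              omega
            · simp only [h3, h4, if_false]
              have := h1 z (hin z hz h3 h4)
              omega
        · by_cases h3 : z = u
          · by_cases h3' : z' = u
            · rw [h3, h3'] at hzz
              exact absurd hzz (G.loopless.irrefl _)
            · by_cases h4' : z' = x
              · simp only [h3, h4', if_neg hux.ne', if_true]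
                omega
              · simp only [h3, h3', h4', if_true, if_false]
                rw [h3] at hzz
                exact (key z' hz' h3' h4' hzz).symm
          · by_cases h4 : z = x
            · by_cases h3' : z' = u
              · simp only [h3', h4, if_neg hux.ne', if_true]
                omega
              · by_cases h4' : z' = x
                · rw [h4, h4'] at hzz
                  exact absurd hzz (G.loopless.irrefl _)
                · simp only [h4, h3', h4', if_neg hux.ne', if_true, if_false]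
                  have := h1 z' (hin z' hz' h3' h4')
                  omega
            · by_cases h3' : z' = u
              · simp only [h3, h4, h3', if_true, if_false]
                rw [h3'] at hzz
                exact key z hz h3 h4 hzz.symm
              · by_cases h4' : z' = x
                · simp only [h3, h4, h4', if_neg hux.ne', if_true, if_false]
                  have := h1 z (hin z hz h3 h4)
                  omega
                · simp only [h3, h4, h3', h4', if_false]
                  exact h2 z (hin z hz h3 h4) z' (hin z' hz' h3' h4') hzz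
      have huH : u ∉ H := hJH u hu
      have hSin : H.erase x ⊆ (Y.erase u).erase x := fun v hv => by
        have h3 := mem_erase.1 hv
        exact mem_erase.2 ⟨h3.1, mem_erase.2 ⟨fun h => huH (h ▸ h3.2), hHY h3.2⟩⟩
      obtain ⟨f, hf, hfo, hfcl, hfc, hcard⟩ := exists_mt hα (erase_subset x H)
        (c := c) (fun p hp q hq => h2 p (hSin hp) q (hSin hq))
      rw [card_sdiff_erase (hBH hx)] at hcard
      have himg := image_card_le (S := H.erase x) (fun v hv => h1 v (hSin hv))
      have hcl' : ∀ v ∈ H.erase x, v ∈ B ∨ f v ∈ B := by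
        intro v hv
        obtain ⟨p, hp, hpx, hpc⟩ := hcl v (hSin hv)
        rcases hfcl v hv p (mem_erase.2 ⟨hpx, hBH hp⟩) hpc.symm with h | h
        · exact Or.inl (h ▸ hp)
        · exact Or.inr (h ▸ hp)
      have hφ : ∀ z, z ∈ J → z ≠ u → ∃ p, p ∈ Ex H f ∧ p ≠ x ∧ ¬ G.Adj z p := by
        intro z hz hzu
        have hzH := hJH z hz
        have hzx : z ≠ x := fun h => hzH (h ▸ hBH hx)
        have hzS : z ∈ (Y.erase u).erase x := mem_erase.2 ⟨hzx, mem_erase.2 ⟨hzu, hJY hz⟩⟩
        obtain ⟨p, hp, hpx, hpc⟩ := hcl z hzS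
        have hpS : p ∈ (Y.erase u).erase x := hSin (mem_erase.2 ⟨hpx, hBH hp⟩)
        have hzp : ¬ G.Adj z p := fun h => h2 z hzS p hpS h hpc.symm
        refine ⟨p, mem_Ex.2 ⟨hBH hp, ?_⟩, hpx, hzp⟩
        by_contra hfp
        have h3 : f p ∈ H.erase x := by
          by_contra h
          have h4 := hfo _ h
          rw [hf.inv] at h4
          exact hfp h4.symm
        have h4 := hSin h3
        refine hpure p hp (f p) (mem_erase.1 h3).2 z (hJY hz) (Ne.symm hfp)
          (fun h => hzH (h ▸ hBH hp)) (fun h => hzH (h ▸ (mem_erase.1 h3).2)) (hf.nadj p)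
          (fun h => hzp h.symm) fun h => h2 _ h4 z hzS h ((hfc p).trans hpc)
      choose! φ hφ1 hφ2 hφ3 using hφ
      refine ⟨f, hf, by omega, mem_Ex.2 ⟨hBH hx, hfo x (by simp)⟩, fun v hv => ?_,
        fun v hv hvB => ?_, φ, fun z hz hzu => ⟨hφ1 z hz hzu, hφ2 z hz hzu, hφ3 z hz hzu⟩⟩
      · by_cases h3 : v = x
        · rw [h3]; exact hx
        · have h4 := mem_Ex.1 hv
          rcases hcl' v (mem_erase.2 ⟨h3, h4.1⟩) with h | h
          · exact h
          · rwa [h4.2] at h
      · have h3 : v ≠ x := fun h => hvB (h ▸ hx)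
        exact (hcl' v (mem_erase.2 ⟨h3, hv⟩)).resolve_left hvB
    -- a neighbour of `u`
    obtain ⟨x₀, hx₀Y, hux₀⟩ := hnb u huY
    have hx₀ : x₀ ∈ B := (hBm x₀).2 ⟨hx₀Y, hux₀⟩
    obtain ⟨f₀, hf₀, -, -, -, hf₀B, -⟩ := hA x₀ hx₀
    have hcardle : ∀ {f h : V → V} {d e : V}, e ∈ Ex H f → Ex H h = insert d ((Ex H f).erase e) →
        (Ex H h).card ≤ (Ex H f).card := by
      intro f h d e he hE'
      rw [hE']
      refine (card_insert_le _ _).trans ?_
      rw [card_erase_of_mem he]
      have : 0 < (Ex H f).card := card_pos.2 ⟨e, he⟩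
      omega
    -- Step B
    have hBB : ∀ g : V → V, Mt G H g → H.card + (Ex H g).card ≤ 2 * (b + 1) →
        ∀ p ∈ Ex H g, p ∈ B := by
      intro g hg hgN p hp
      by_contra hpB
      have hpH := (mem_Ex.1 hp).1
      have hx' := hf₀B p hpH hpB
      have hnadj := hf₀.nadj p
      set x' := f₀ p with hx'def
      have hx'p : x' ≠ p := fun h => hpB (h ▸ hx')
      obtain ⟨f, hf, hfN, hx'f, -, -, φ, hφ⟩ := hA x' hx'
      obtain ⟨e, he, -, h, hh, hE'⟩ := exchange hmin hf hg hgN hp
      have hhN : H.card + (Ex H h).card ≤ 2 * (b + 1) := by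
        have := hcardle he hE'
        omega
      have hph : p ∈ Ex H h := by rw [hE']; exact mem_insert_self _ _
      by_cases hex : e = x'
      · apply hG
        refine (hh.col_hosts (J := J) hJ hJH (φ := fun z => if z = u then p else φ z) ?_ ?_
          hhN).mono hY
        · intro z hz
          by_cases hzu : z = u
          · simp only [hzu, if_true]
            exact hph
          · simp only [hzu, if_false]
            rw [hE']
            exact mem_insert_of_mem (mem_erase.2 ⟨by rw [hex]; exact (hφ z hz hzu).2.1,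
              (hφ z hz hzu).1⟩)
        · intro z hz
          by_cases hzu : z = u
          · simp only [hzu, if_true]
            exact fun h' => hpB ((hBm p).2 ⟨hHY hpH, h'⟩)
          · simp only [hzu, if_false]
            exact (hφ z hz hzu).2.2
      · have hx'h : x' ∈ Ex H h := by
          rw [hE']
          exact mem_insert_of_mem (mem_erase.2 ⟨Ne.symm hex, hx'f⟩)
        exact hnadj (adj_of_mem_Ex hmin hh hhN hx'h hph hx'p).symm
    -- absorbing a vertex outside of `B`
    have hX : ∀ f : V → V, Mt G H f → ∀ a ∈ Ex H f, a ∉ B → ∃ f' : V → V, Mt G H f' ∧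
        (Ex H f').card + 2 ≤ (Ex H f).card ∧ ∀ v ∈ Ex H f, v ∉ B → v ≠ a → v ∈ Ex H f' := by
      intro f hf a ha haB
      have haH := (mem_Ex.1 ha).1
      have hd := hf₀B a haH haB
      have had := hf₀.nadj a
      set d := f₀ a with hddef
      have hdB : d ∈ B := hd
      obtain ⟨g, hg, hgN, hdg, -, -, -⟩ := hA d hd
      obtain ⟨e, he, ⟨g', hg', hg'N, heg'⟩, h, hh, hE'⟩ := exchange hmin hf hg hgN hdg
      have heB := hBB g' hg' hg'N e heg'
      have hca := hcardle he hE'
      have hah : a ∈ Ex H h := by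
        rw [hE']
        exact mem_insert_of_mem (mem_erase.2 ⟨fun h' => haB (h' ▸ heB), ha⟩)
      have hdh : d ∈ Ex H h := by rw [hE']; exact mem_insert_self _ _
      have had' : a ≠ d := fun h' => haB (h' ▸ hdB)
      obtain ⟨h', hh', hE'', -⟩ := hh.pair hah hdh had' had
      have hdh' : d ∈ (Ex H h).erase a := mem_erase.2 ⟨Ne.symm had', hdh⟩
      refine ⟨h', hh', ?_, fun v hv hvB hva => ?_⟩
      · have h3 : 0 < (Ex H h).card := card_pos.2 ⟨a, hah⟩
        have h4 : 0 < ((Ex H h).erase a).card := card_pos.2 ⟨d, hdh'⟩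
        rw [card_erase_of_mem hah] at h4
        rw [hE'', card_erase_of_mem hdh', card_erase_of_mem hah]
        omega
      · rw [hE'', hE']
        refine mem_erase.2 ⟨fun h3 => hvB (h3 ▸ hdB), mem_erase.2 ⟨hva, mem_insert_of_mem
          (mem_erase.2 ⟨fun h3 => hvB (h3 ▸ heB), hv⟩)⟩⟩
    -- colourings of `Y` without a vertex
    have hcrit : ∀ v ∈ Y, Col G (Y.erase v) (b + 1) := by
      intro v hv
      obtain ⟨y, hy, hvy⟩ := hnb v hv
      refine (col_union (hE v hv y hy hvy)
        (col_of_card_le (S := {y}) (m := 1) (by simp))).mono fun z hz => ?_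
      by_cases h : z = y
      · exact mem_union_right _ (mem_singleton.2 h)
      · exact mem_union_left _ (mem_erase.2 ⟨h, hz⟩)
    -- Step C
    have hHB : ∀ a ∈ H, a ∈ B := by
      intro a haH
      by_contra haB
      obtain ⟨ψ, h1, h2⟩ := hcrit a (hHY haH)
      have hSin : H.erase a ⊆ Y.erase a := erase_subset_erase _ hHY
      have huS : u ∈ Y.erase a := mem_erase.2 ⟨fun h => hJH u hu (h ▸ haH), huY⟩
      obtain ⟨f, hf, hfo, -, hfc, hcard⟩ := exists_mt hα (erase_subset a H)
        (c := ψ) (fun p hp q hq => h2 p (hSin hp) q (hSin hq))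
      rw [card_sdiff_erase haH] at hcard
      have haf : a ∈ Ex H f := mem_Ex.2 ⟨haH, hfo a (by simp)⟩
      have himg := image_card_le (S := H.erase a) (fun v hv => h1 v (hSin hv))
      have h3 : ∃ p ∈ H.erase a, ψ p = ψ u := by
        by_contra hcon
        push Not at hcon
        have h4 := image_card_lt (S := H.erase a) (fun v hv => h1 v (hSin hv)) (h1 u huS) hcon
        exact haB (hBB f hf (by omega) a haf)
      obtain ⟨p, hp, hpu⟩ := h3
      have hnB : ∀ q ∈ H.erase a, ψ q = ψ u → q ∉ B := fun q hq hqu hqB =>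
        h2 u huS q (hSin hq) ((hBm q).1 hqB).2 hqu.symm
      have hpB := hnB p hp hpu
      have hp' := mem_erase.1 hp
      by_cases hfp : f p = p
      · obtain ⟨f', hf', h4, h5⟩ := hX f hf a haf haB
        exact hpB (hBB f' hf' (by omega) p (h5 p (mem_Ex.2 ⟨hp'.2, hfp⟩) hpB hp'.1))
      · have hqS : f p ∈ H.erase a := by
          by_contra h
          have h4 := hfo _ h
          rw [hf.inv] at h4
          exact hfp h4.symm
        have hqB := hnB (f p) hqS ((hfc p).trans hpu)
        obtain ⟨f₁, hf₁, hE₁⟩ := hf.unpair hfp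
        have hc₁ : (Ex H f₁).card ≤ (Ex H f).card + 2 := by
          rw [hE₁]
          refine (card_insert_le _ _).trans ?_
          have := card_insert_le (f p) (Ex H f)
          omega
        have hp₁ : p ∈ Ex H f₁ := by rw [hE₁]; exact mem_insert_self _ _
        have hq₁ : f p ∈ Ex H f₁ := by rw [hE₁]; exact mem_insert_of_mem (mem_insert_self _ _)
        have ha₁ : a ∈ Ex H f₁ := by
          rw [hE₁]; exact mem_insert_of_mem (mem_insert_of_mem haf)
        obtain ⟨f₂, hf₂, hc₂, hk₂⟩ := hX f₁ hf₁ a ha₁ haB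
        have hp₂ := hk₂ p hp₁ hpB hp'.1
        have hq₂ := hk₂ (f p) hq₁ hqB (mem_erase.1 hqS).1
        obtain ⟨f₃, hf₃, hc₃, hk₃⟩ := hX f₂ hf₂ p hp₂ hpB
        exact hqB (hBB f₃ hf₃ (by omega) _ (hk₃ (f p) hq₂ hqB hfp))
    -- Step D
    have hJu : ∀ v ∈ J, v = u := by
      intro v hv
      by_contra hvu
      obtain ⟨ψ, h1, h2⟩ := hcrit v (hJY hv)
      have hSin : H ⊆ Y.erase v := fun p hp => mem_erase.2 ⟨fun h => hJH v hv (h ▸ hp), hHY hp⟩
      have huS : u ∈ Y.erase v := mem_erase.2 ⟨Ne.symm hvu, huY⟩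
      have h3 := image_card_lt (S := H) (fun p hp => h1 p (hSin hp)) (h1 u huS) fun p hp hpu =>
        h2 u huS p (hSin hp) ((hBm p).1 (hHB p hp)).2 hpu.symm
      exact hHb (col_card_le (c := ψ) (R := H.image ψ)
        (fun p hp q hq => h2 p (hSin hp) q (hSin hq)) (fun p hp => mem_image_of_mem _ hp)
        (by omega))
    -- Step E
    have hHcl : ∀ x ∈ H, ∀ z ∈ H, x ≠ z → G.Adj x z := by
      refine complete_of_matchings hmin (fun x hx => ?_) (fun x hx y hy hxy => ?_) hα
      · obtain ⟨f, h1, h2, h3, -⟩ := hA x (hHB x hx)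
        exact ⟨f, h1, h2, h3⟩
      · obtain ⟨ψ, h1, h2⟩ := hE x (hHY hx) y (hHY hy) hxy
        have hSin : (H.erase x).erase y ⊆ (Y.erase x).erase y :=
          erase_subset_erase _ (erase_subset_erase _ hHY)
        have huS : u ∈ (Y.erase x).erase y := mem_erase.2 ⟨fun h => hJH u hu (h ▸ hy),
          mem_erase.2 ⟨fun h => hJH u hu (h ▸ hx), huY⟩⟩
        obtain ⟨f, hf, hfo, -, -, hcard⟩ := exists_mt hα
          ((erase_subset y (H.erase x)).trans (erase_subset x H))
          (c := ψ) (fun p hp q hq => h2 p (hSin hp) q (hSin hq))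
        rw [card_sdiff_erase_erase hx hy hxy.ne] at hcard
        have h3 := image_card_lt (S := (H.erase x).erase y) (fun p hp => h1 p (hSin hp))
          (h1 u huS) fun p hp hpu => h2 u huS p (hSin hp)
            ((hBm p).1 (hHB p (mem_erase.1 (mem_erase.1 hp).2).2)).2 hpu.symm
        exact ⟨f, hf, by omega, mem_Ex.2 ⟨hx, hfo x (by simp)⟩, mem_Ex.2 ⟨hy, hfo y (by simp)⟩⟩
    refine false_of_cl hG hfree fun x hx y hy hxy => ?_
    have hcase : ∀ v ∈ Y, v ∈ H ∨ v = u := fun v hv => by
      by_cases h : v ∈ H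
      · exact Or.inl h
      · exact Or.inr (hJu v (hHJ v hv h))
    rcases hcase x hx with h | h <;> rcases hcase y hy with h' | h'
    · exact hHcl x h y h' hxy
    · rw [h']
      exact ((hBm x).1 (hHB x h)).2.symm
    · rw [h]
      exact ((hBm y).1 (hHB y h')).2
    · exact absurd (h.trans h'.symm) hxy

end Pool.Agent.helper49.ELT
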