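import Pool.Agent.helper49.ELT.Pairs

/-!
# Splitting graphs with large fractional chromatic number and their joins
-/

set_option linter.unusedSectionVars false

namespace Pool.Agent.helper49.ELT

open Finset Pool.Agent.helper95.ELT

variable {V : Type*} [Fintype V] [DecidableEq V] {G : SimpleGraph V}

/-- Linear programming duality, with equality. -/
theorem exists_fracClique_ge {c : ℝ} (h : c ≤ fractionalChromaticNumber G) :
    ∃ w : V → ℝ, FracClique G w ∧ c ≤ ∑ v, w v := by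
  classical
  set P : Set (V → ℝ) := {w | FracClique G w} with hP
  have hclosed : IsClosed P := by
    have h1 : P = (⋂ v, {w : V → ℝ | 0 ≤ w v}) ∩
        ⋂ I : {I : Finset V // ∀ u ∈ I, ∀ v ∈ I, ¬ G.Adj u v},
          {w : V → ℝ | ∑ v ∈ I.1, w v ≤ 1} := by
      ext w
      simp only [hP, Set.mem_setOf_eq, Set.mem_inter_iff, Set.mem_iInter, Subtype.forall]
      exact ⟨fun h => ⟨h.nonneg, h.indep⟩, fun h => ⟨h.1, h.2⟩⟩
    rw [h1]
    refine (isClosed_iInter fun v => isClosed_le continuous_const (continuous_apply v)).inter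
      (isClosed_iInter fun I => isClosed_le ?_ continuous_const)
    exact continuous_finsetSum _ fun v _ => continuous_apply v
  have hsub : P ⊆ Set.pi Set.univ fun _ : V => Set.Icc (0 : ℝ) 1 :=
    fun w hw v _ => ⟨hw.nonneg v, hw.le_one v⟩
  have hcomp : IsCompact P :=
    (isCompact_univ_pi fun _ => isCompact_Icc).of_isClosed_subset hclosed hsub
  have hne : P.Nonempty := ⟨fun _ => 0, ⟨fun _ => le_rfl, fun I _ => by simp⟩⟩
  obtain ⟨w, hw, hmax⟩ := hcomp.exists_isMaxOn hne
    (f := fun w : V → ℝ => ∑ v, w v)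
    (continuous_finsetSum _ fun v _ => continuous_apply v).continuousOn
  refine ⟨w, hw, ?_⟩
  by_contra hcon
  push Not at hcon
  obtain ⟨w', hw', h1⟩ := exists_fracClique (G := G) (c := (∑ v, w v + c) / 2) (by linarith)
  have h2 : ∑ v, w' v ≤ ∑ v, w v := hmax hw'
  linarith

theorem exists_weight_ge {U : Set V} {c : ℝ} (h : c ≤ fractionalChromaticNumber (G.induce U)) :
    ∃ w : V → ℝ, FracClique (within G U) w ∧ c ≤ ∑ v, w v := by
  classical
  obtain ⟨w₀, hw₀, hc⟩ := exists_fracClique_ge h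
  set w : V → ℝ := fun v => if h : v ∈ U then w₀ ⟨v, h⟩ else 0 with hw
  have hsub : ∀ x : U, w x.1 = w₀ x := fun x => by simp [hw]
  have hsum : ∀ I : Finset V, ∑ v ∈ I, w v = ∑ x ∈ I.subtype (· ∈ U), w₀ x := by
    intro I
    rw [← sum_congr rfl (fun x _ => hsub x), sum_subtype_eq_sum_filter]
    rw [sum_filter_of_ne]
    intro v _ hv
    by_contra hcon
    exact hv (by simp [hw, hcon])
  refine ⟨w, ⟨fun v => ?_, fun I hI => ?_⟩, ?_⟩
  · by_cases hv : v ∈ U
    · simpa [hw, hv] using hw₀.nonneg _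
    · simp [hw, hv]
  · rw [hsum]
    refine hw₀.indep _ fun x hx y hy hxy => ?_
    rw [mem_subtype] at hx hy
    exact hI x.1 hx y.1 hy ⟨by simpa using hxy, x.2, y.2⟩
  · rw [hsum univ]
    convert hc using 2
    ext x
    simp

theorem split_part_aux' {U : Set V} {κ p q : ℕ}
    (h : (κ : ℝ) - 1 ≤ fractionalChromaticNumber (G.induce U)) {X : Finset V}
    (hXU : ∀ v, v ∈ X ↔ v ∈ U) (hX : Ge G X κ) (hK : ¬ HasClique G U κ)
    (hp : 2 ≤ p) (hpq : p ≤ q) (hκ : p + q = κ + 1) :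
    ∃ S T : Finset V, (S : Set V) ⊆ U ∧ (T : Set V) ⊆ U ∧ Disjoint S T ∧ Ge G S p ∧
      Ge G T q := by
  classical
  obtain ⟨w, hw, hc⟩ := exists_weight_ge h
  by_cases hU : ∀ S : Finset V, Col (within G U) S (p - 1) ∨ Col (within G U) Sᶜ (q - 1)
  · exfalso
    refine false_of_weight' (a := p - 1) (b := q - 1) hw (by omega) (by omega) hU ?_ ?_ ?_
    · rintro ⟨c, h1, h2⟩
      have h3 := hX (p - 1 + (q - 1)) ⟨c, fun u _ => h1 u (mem_univ _), fun u hu v hv huv =>
        h2 u (mem_univ _) v (mem_univ _) ⟨huv, (hXU u).1 hu, (hXU v).1 hv⟩⟩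
      omega
    · intro K hKcl hKc
      refine hK ⟨K, ?_, fun u hu v hv huv => (hKcl u hu v hv huv).1, by omega⟩
      intro u hu
      have h5 : 1 < K.card := by omega
      obtain ⟨v, hv, hvu⟩ := exists_mem_ne h5 u
      exact (hKcl u hu v hv hvu.symm).2.1
    · have h3 : ((p - 1 : ℕ) : ℝ) + ((q - 1 : ℕ) : ℝ) = (κ : ℝ) - 1 := by
        rw [Nat.cast_sub (by omega), Nat.cast_sub (by omega)]
        have : (p : ℝ) + q = κ + 1 := by exact_mod_cast hκ
        push_cast
        linarith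
      rw [h3]
      exact hc
  · push Not at hU
    obtain ⟨S, h1, h2⟩ := hU
    have key : ∀ (T : Finset V) (r : ℕ), 2 ≤ r → ¬ Col (within G U) T (r - 1) →
        Ge G (T.filter (· ∈ U)) r := by
      intro T r hr hT m hm
      by_contra hcon
      apply hT
      obtain ⟨c, h3, h4⟩ := hm
      refine ⟨fun u => if u ∈ U then c u else 0, fun u hu => ?_, fun u hu v hv huv => ?_⟩
      · by_cases h5 : u ∈ U
        · have := h3 u (mem_filter.2 ⟨hu, h5⟩)
          simp only [h5, if_true]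
          omega
        · simp only [h5, if_false]
          omega
      · simp only [huv.2.1, huv.2.2, if_true]
        exact h4 u (mem_filter.2 ⟨hu, huv.2.1⟩) v (mem_filter.2 ⟨hv, huv.2.2⟩) huv.1
    refine ⟨S.filter (· ∈ U), Sᶜ.filter (· ∈ U), ?_, ?_, ?_, key S p hp h1,
      key Sᶜ q (by omega) h2⟩
    · intro u hu
      exact (mem_filter.1 (mem_coe.1 hu)).2
    · intro u hu
      exact (mem_filter.1 (mem_coe.1 hu)).2
    · exact disjoint_filter_filter disjoint_compl_right

theorem split_part' {U : Set V} {κ p q : ℕ}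
    (h : (κ : ℝ) - 1 ≤ fractionalChromaticNumber (G.induce U)) {X : Finset V}
    (hXU : ∀ v, v ∈ X ↔ v ∈ U) (hX : Ge G X κ) (hK : ¬ HasClique G U κ)
    (hp : 2 ≤ p) (hq : 2 ≤ q) (hκ : p + q = κ + 1) :
    ∃ S T : Finset V, (S : Set V) ⊆ U ∧ (T : Set V) ⊆ U ∧ Disjoint S T ∧ Ge G S p ∧
      Ge G T q := by
  rcases le_total p q with hpq | hpq
  · exact split_part_aux' h hXU hX hK hp hpq hκ
  · obtain ⟨S, T, h1, h2, h3, h4, h5⟩ := split_part_aux' h hXU hX hK hq hpq (by omega)
    exact ⟨T, S, h2, h1, h3.symm, h5, h4⟩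

/-- Joins: if one of the parts which contain no clique with `κ i` vertices can be split for all
pairs, then the join can be split for all pairs. -/
theorem join_split' {ι : Type*} [Fintype ι] (U : ι → Set V) (κ : ι → ℕ) {k : ℕ}
    (hjoin : ∀ i j, i ≠ j → ∀ u ∈ U i, ∀ v ∈ U j, G.Adj u v)
    (hfrac : ∀ i, (κ i : ℝ) - 1 ≤ fractionalChromaticNumber (G.induce (U i)))
    (hge' : ∀ i, ∀ X : Finset V, (∀ v, v ∈ X ↔ v ∈ U i) → Ge G X (κ i))
    (hsum : ∑ i, κ i = k) (hfree : ¬ HasClique G Set.univ k) {p q : ℕ} (hp : 2 ≤ p) (hq : 2 ≤ q)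
    (hpq : p + q = k + 1) :
    ∃ S T : Finset V, Disjoint S T ∧ Ge G S p ∧ Ge G T q := by
  classical
  set X : ι → Finset V := fun i => univ.filter (· ∈ U i) with hX
  have hXU : ∀ i v, v ∈ X i ↔ v ∈ U i := fun i v => by simp [hX]
  have hge : ∀ i, Ge G (X i) (κ i) := fun i => hge' i (X i) (hXU i)
  have hdisj : ∀ i j, i ≠ j → ∀ v, v ∈ U i → v ∉ U j := fun i j hij v hi hj =>
    G.loopless.irrefl _ (hjoin i j hij v hi v hj)
  -- a part without a clique
  have h1 : ∃ i, ¬ HasClique G (U i) (κ i) := by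
    by_contra hcon
    push Not at hcon
    choose K hK1 hK2 hK3 using hcon
    have hKd : ∀ i j, i ≠ j → Disjoint (K i) (K j) := fun i j hij =>
      disjoint_left.2 fun v hi hj => hdisj i j hij v (hK1 i hi) (hK1 j hj)
    refine hfree ⟨univ.biUnion K, Set.subset_univ _, ?_, ?_⟩
    · intro u hu v hv huv
      obtain ⟨i, -, hi⟩ := mem_biUnion.1 hu
      obtain ⟨j, -, hj⟩ := mem_biUnion.1 hv
      by_cases hij : i = j
      · rw [← hij] at hj
        exact hK2 i u hi v hj huv
      · exact hjoin i j hij u (hK1 i hi) v (hK1 j hj)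
    · rw [card_biUnion fun i _ j _ hij => hKd i j hij]
      rw [← hsum]
      exact sum_congr rfl fun i _ => hK3 i
  obtain ⟨i, hi⟩ := h1
  have h3 : 3 ≤ κ i := by
    by_contra hcon
    have h4 : κ i = 0 ∨ κ i = 1 ∨ κ i = 2 := by omega
    apply hi
    rcases h4 with h4 | h4 | h4
    · exact ⟨∅, by simp, by simp, by simp [h4]⟩
    · have h5 : (X i).Nonempty := by
        by_contra h6
        rw [not_nonempty_iff_eq_empty] at h6
        have := hge i 0 (by rw [h6]; exact ⟨fun _ => 0, by simp, by simp⟩)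
        omega
      obtain ⟨v, hv⟩ := h5
      refine ⟨{v}, by simpa using (hXU i v).1 hv, ?_, by simp [h4]⟩
      intro a ha b hb hab
      rw [mem_singleton] at ha hb
      exact absurd (ha.trans hb.symm) hab
    · by_contra h5
      have h6 : Col G (X i) 1 := by
        refine ⟨fun _ => 0, fun _ _ => zero_lt_one, fun u hu v hv huv => ?_⟩
        exfalso
        apply h5
        refine ⟨{u, v}, ?_, ?_, by rw [card_pair huv.ne, h4]⟩
        · intro x hx
          simp only [coe_insert, coe_singleton, Set.mem_insert_iff, Set.mem_singleton_iff] at hx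
          rcases hx with h | h
          · rw [h]; exact (hXU i u).1 hu
          · rw [h]; exact (hXU i v).1 hv
        · intro x hx y hy hxy
          simp only [mem_insert, mem_singleton] at hx hy
          rcases hx with h | h <;> rcases hy with h' | h'
          · exact absurd (h.trans h'.symm) hxy
          · rw [h, h']; exact huv
          · rw [h, h']; exact huv.symm
          · exact absurd (h.trans h'.symm) hxy
      have := hge i 1 h6
      omega
  -- the other parts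
  set X' : Finset V := (univ.erase i).biUnion X with hX'
  have h4 : Ge G X' (∑ j ∈ univ.erase i, κ j) :=
    ge_biUnion _ (fun j _ => hge j) fun a _ b _ hab u hu v hv =>
      hjoin a b hab u ((hXU a u).1 hu) v ((hXU b v).1 hv)
  have h5 : κ i + ∑ j ∈ univ.erase i, κ j = k := by rw [add_sum_erase _ _ (mem_univ i), hsum]
  have h6 : ∀ u ∈ U i, ∀ v ∈ X', G.Adj u v := by
    intro u hu v hv
    obtain ⟨j, hj, hvj⟩ := mem_biUnion.1 hv
    exact hjoin i j (fun h => (mem_erase.1 hj).1 h.symm) u hu v ((hXU j v).1 hvj)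
  obtain ⟨p₁, q₁, hp₁, hq₁, hpq₁, hp₁p, hq₁q⟩ : ∃ p₁ q₁ : ℕ, 2 ≤ p₁ ∧ 2 ≤ q₁ ∧
      p₁ + q₁ = κ i + 1 ∧ p₁ ≤ p ∧ q₁ ≤ q := by
    refine ⟨max 2 (κ i + 1 - q), κ i + 1 - max 2 (κ i + 1 - q), ?_, ?_, ?_, ?_, ?_⟩ <;> omega
  obtain ⟨S₁, T₁, hS₁, hT₁, hd₁, h7, h8⟩ := split_part' (hfrac i) (hXU i) (hge i) hi hp₁ hq₁ hpq₁
  have h9 : ∑ j ∈ univ.erase i, κ j = (p - p₁) + (q - q₁) := by omega
  rw [h9] at h4
  obtain ⟨S₂, hS₂, h10, h11⟩ := exists_sweep h4
  have hdU : ∀ v ∈ U i, v ∉ X' := fun v hv hv' => G.loopless.irrefl _ (h6 v hv v hv')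
  refine ⟨S₁ ∪ S₂, T₁ ∪ (X' \ S₂), ?_, ?_, ?_⟩
  · rw [disjoint_union_left, disjoint_union_right, disjoint_union_right]
    refine ⟨⟨hd₁, ?_⟩, ?_, disjoint_sdiff⟩
    · exact disjoint_left.2 fun v hv hv' => hdU v (hS₁ hv) (mem_sdiff.1 hv').1
    · exact disjoint_left.2 fun v hv hv' => hdU v (hT₁ hv') (hS₂ hv)
  · exact (ge_union (fun u hu v hv => h6 u (hS₁ hu) v (hS₂ hv)) h7 h10).mono_num (by omega)
  · exact (ge_union (fun u hu v hv => h6 u (hT₁ hu) v (mem_sdiff.1 hv).1) h8 h11).mono_num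
      (by omega)

end Pool.Agent.helper49.ELT
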