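import Pool.Agent.helper49.ELT.Double
import Pool.Agent.helper49.ELT.Join

/-!
# Removing an edge from a join
-/

set_option linter.unusedSectionVars false

namespace Pool.Agent.helper49.ELT

open Finset Pool.Agent.helper95.ELT

variable {V : Type*} [Fintype V] [DecidableEq V] {G : SimpleGraph V}

/-- One part of the join: an edge such that the rest has chromatic number at least `κ - 1`. -/
theorem exists_edge_part {U : Set V} {κ : ℕ} (hκ : 3 ≤ κ)
    (h : (κ : ℝ) - 4 / 3 < fractionalChromaticNumber (G.induce U)) {X : Finset V}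
    (hXU : ∀ v, v ∈ X ↔ v ∈ U) (hX : Ge G X κ) (hK : ¬ HasClique G U κ) :
    ∃ x ∈ X, ∃ y ∈ X, G.Adj x y ∧ Ge G ((X.erase x).erase y) (κ - 1) := by
  classical
  by_contra hcon
  push Not at hcon
  obtain ⟨b, rfl⟩ : ∃ b, κ = b + 2 := ⟨κ - 2, by omega⟩
  obtain ⟨w, hw, hc, hw0⟩ := exists_weight h
  have hcol : ∀ x ∈ X, ∀ y ∈ X, G.Adj x y → Col G ((X.erase x).erase y) b := by
    intro x hx y hy hxy
    have h1 := hcon x hx y hy hxy
    unfold Ge at h1
    push Not at h1
    obtain ⟨m, hm, hlt⟩ := h1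
    exact hm.mono_num (by omega)
  have hwG : FracClique G w :=
    ⟨hw.nonneg, fun I hI => hw.indep I fun u hu v hv h => hI u hu v hv h.1⟩
  have hXn : ¬ Col G X (b + 1) := fun h1 => by
    have := hX _ h1
    omega
  obtain ⟨Y, hY, hmin⟩ := exists_min_image (X.powerset.filter fun Y => ¬ Col G Y (b + 1))
    Finset.card ⟨X, by simp [hXn]⟩
  simp only [mem_filter, mem_powerset] at hY hmin
  refine false_of_double (Y := Y) (b := b) hwG hY.2 ?_ ?_ ?_ ?_
  · intro K hKY hKcl hKc
    refine hK ⟨K, fun v hv => (hXU v).1 (hY.1 (hKY hv)), hKcl, hKc⟩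
  · intro x hx y hy hxy
    exact (hcol x (hY.1 hx) y (hY.1 hy) hxy).mono
      (erase_subset_erase _ (erase_subset_erase _ hY.1))
  · intro x hx
    by_contra h1
    push Not at h1
    have h2 : Col G (Y.erase x) (b + 1) := by
      by_contra h3
      have := hmin (Y.erase x) ⟨(erase_subset _ _).trans hY.1, h3⟩
      have := card_erase_lt_of_mem hx
      omega
    apply hY.2
    rw [← insert_erase hx]
    exact col_insert_of_isolated h2 (by omega) (notMem_erase _ _)
      fun u hu => h1 u (mem_erase.1 hu).2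
  · intro x hx y hy hxy
    have h1 := hwG.sum_le (hcol x (hY.1 hx) y (hY.1 hy) hxy)
    have h2 : ∑ v, w v = ∑ v ∈ X, w v :=
      (sum_subset (subset_univ _) fun v _ hv => hw0 v fun h => hv ((hXU v).2 h)).symm
    have hy' : y ∈ X.erase x := mem_erase.2 ⟨hxy.ne', hY.1 hy⟩
    rw [h2, ← add_sum_erase _ _ (hY.1 hx), ← add_sum_erase _ _ hy'] at hc
    push_cast at hc
    linarith

/-- Joins: there is an edge such that the rest has chromatic number at least `k - 1`. -/
theorem join_edge {ι : Type*} [Fintype ι] (U : ι → Set V) (κ : ι → ℕ) {k : ℕ}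
    (hjoin : ∀ i j, i ≠ j → ∀ u ∈ U i, ∀ v ∈ U j, G.Adj u v)
    (hfrac : ∀ i, (κ i : ℝ) - 4 / 3 < fractionalChromaticNumber (G.induce (U i)))
    (hge' : ∀ i, ∀ X : Finset V, (∀ v, v ∈ X ↔ v ∈ U i) → Ge G X (κ i))
    (hsum : ∑ i, κ i = k) (hfree : ¬ HasClique G Set.univ k) :
    ∃ x y, G.Adj x y ∧ Ge G ({x, y} : Finset V)ᶜ (k - 1) := by
  classical
  set X : ι → Finset V := fun i => univ.filter (· ∈ U i) with hX
  have hXU : ∀ i v, v ∈ X i ↔ v ∈ U i := fun i v => by simp [hX]
  have hge : ∀ i, Ge G (X i) (κ i) := fun i => hge' i (X i) (hXU i)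
  have hdisj : ∀ i j, i ≠ j → ∀ v, v ∈ U i → v ∉ U j := fun i j hij v hi hj =>
    G.loopless.irrefl _ (hjoin i j hij v hi v hj)
  -- a part without a clique
  have h1 : ∃ i, ¬ HasClique G (U i) (κ i) := by
    by_contra hcon
    push Not at hcon
    choose K hK1 hK2 hK3 using hcon
    have hKd : ∀ i j, i ≠ j → Disjoint (K i) (K j) := fun i j hij =>
      disjoint_left.2 fun v hi hj => hdisj i j hij v (hK1 i hi) (hK1 j hj)
    refine hfree ⟨univ.biUnion K, Set.subset_univ _, ?_, ?_⟩
    · intro u hu v hv huv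
      obtain ⟨i, -, hi⟩ := mem_biUnion.1 hu
      obtain ⟨j, -, hj⟩ := mem_biUnion.1 hv
      by_cases hij : i = j
      · rw [← hij] at hj
        exact hK2 i u hi v hj huv
      · exact hjoin i j hij u (hK1 i hi) v (hK1 j hj)
    · rw [card_biUnion fun i _ j _ hij => hKd i j hij]
      rw [← hsum]
      exact sum_congr rfl fun i _ => hK3 i
  obtain ⟨i, hi⟩ := h1
  have h3 : 3 ≤ κ i := by
    by_contra hcon
    have h4 : κ i = 0 ∨ κ i = 1 ∨ κ i = 2 := by omega
    apply hi
    rcases h4 with h4 | h4 | h4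
    · exact ⟨∅, by simp, by simp, by simp [h4]⟩
    · have h5 : (X i).Nonempty := by
        by_contra h6
        rw [not_nonempty_iff_eq_empty] at h6
        have := hge i 0 (by rw [h6]; exact ⟨fun _ => 0, by simp, by simp⟩)
        omega
      obtain ⟨v, hv⟩ := h5
      refine ⟨{v}, by simpa using (hXU i v).1 hv, ?_, by simp [h4]⟩
      intro a ha b hb hab
      rw [mem_singleton] at ha hb
      exact absurd (ha.trans hb.symm) hab
    · by_contra h5
      have h6 : Col G (X i) 1 := by
        refine ⟨fun _ => 0, fun _ _ => zero_lt_one, fun u hu v hv huv => ?_⟩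
        exfalso
        apply h5
        refine ⟨{u, v}, ?_, ?_, by rw [card_pair huv.ne, h4]⟩
        · intro x hx
          simp only [coe_insert, coe_singleton, Set.mem_insert_iff, Set.mem_singleton_iff] at hx
          rcases hx with h | h
          · rw [h]; exact (hXU i u).1 hu
          · rw [h]; exact (hXU i v).1 hv
        · intro x hx y hy hxy
          simp only [mem_insert, mem_singleton] at hx hy
          rcases hx with h | h <;> rcases hy with h' | h'
          · exact absurd (h.trans h'.symm) hxy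
          · rw [h, h']; exact huv
          · rw [h, h']; exact huv.symm
          · exact absurd (h.trans h'.symm) hxy
      have := hge i 1 h6
      omega
  -- the other parts
  set X' : Finset V := (univ.erase i).biUnion X with hX'
  have h4 : Ge G X' (∑ j ∈ univ.erase i, κ j) :=
    ge_biUnion _ (fun j _ => hge j) fun a _ b _ hab u hu v hv =>
      hjoin a b hab u ((hXU a u).1 hu) v ((hXU b v).1 hv)
  have h5 : κ i + ∑ j ∈ univ.erase i, κ j = k := by rw [add_sum_erase _ _ (mem_univ i), hsum]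
  have h6 : ∀ u ∈ U i, ∀ v ∈ X', G.Adj u v := by
    intro u hu v hv
    obtain ⟨j, hj, hvj⟩ := mem_biUnion.1 hv
    exact hjoin i j (fun h => (mem_erase.1 hj).1 h.symm) u hu v ((hXU j v).1 hvj)
  have hdU : ∀ v ∈ U i, v ∉ X' := fun v hv hv' => G.loopless.irrefl _ (h6 v hv v hv')
  obtain ⟨x, hx, y, hy, hxy, h7⟩ := exists_edge_part h3 (hfrac i) (hXU i) (hge i) hi
  refine ⟨x, y, hxy, ?_⟩
  have h8 := ge_union (S := ((X i).erase x).erase y) (T := X') (fun u hu v hv =>
    h6 u ((hXU i u).1 (mem_erase.1 (mem_erase.1 hu).2).2) v hv) h7 h4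
  refine (h8.mono fun v hv => ?_).mono_num (by omega)
  rw [mem_compl, mem_insert, mem_singleton, not_or]
  rcases mem_union.1 hv with h | h
  · exact ⟨(mem_erase.1 (mem_erase.1 h).2).1, (mem_erase.1 h).1⟩
  · exact ⟨fun h' => hdU x ((hXU i x).1 hx) (h' ▸ h), fun h' => hdU y ((hXU i y).1 hy) (h' ▸ h)⟩

end Pool.Agent.helper49.ELT
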