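import Pool.Agent.helper49.ELT.Odd
import Pool.Agent.helper49.ELT.Clique

/-!
# Common neighbourhoods of cliques

`nb G Q` is the set of the common neighbours of `Q`. If `Q` is a clique, `H` is a subset of
`L = nb G Q` with `χ(H) ≥ j`, and `H ∪ C` is `j`-colourable for all independent `C ⊆ L`, then
the set `S = Q ∪ H` splits the graph: `χ(S) ≥ |Q| + j` and `χ(G - S) ≥ χ(G) - (|Q| + j) + 1`.
-/

set_option linter.unusedSectionVars false

namespace Pool.Agent.helper49.ELT

open Finset Pool.Agent.helper95.ELT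

variable {V : Type*} [Fintype V] [DecidableEq V] {G : SimpleGraph V}

open Classical in
/-- The common neighbours. -/
noncomputable def nb (G : SimpleGraph V) (Q : Finset V) : Finset V :=
  univ.filter fun v => ∀ q ∈ Q, G.Adj q v

theorem mem_nb {Q : Finset V} {v : V} : v ∈ nb G Q ↔ ∀ q ∈ Q, G.Adj q v := by simp [nb]

/-- `C` is independent. -/
def Ind (G : SimpleGraph V) (C : Finset V) : Prop := ∀ u ∈ C, ∀ v ∈ C, ¬ G.Adj u v

theorem Ind.mono {C D : Finset V} (h : Ind G D) (hCD : C ⊆ D) : Ind G C :=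
  fun u hu v hv => h u (hCD hu) v (hCD hv)

/-- The recolouring step. -/
theorem split_of_robust {a b : ℕ} {S : Finset V} (hb : 1 ≤ b) (hG : ¬ Col G univ (a + b))
    (hrob : ∀ C, Disjoint S C → Ind G C → Col G (S ∪ C) (a + 1)) : ¬ Col G Sᶜ b := by
  classical
  rintro ⟨c, hc1, hc2⟩
  set C : Finset V := Sᶜ.filter fun v => c v = 0 with hC
  have h3 := hrob C (disjoint_left.2 fun v hv hv' => mem_compl.1 (mem_filter.1 hv').1 hv) (by
    intro u hu v hv huv
    have hu' := mem_filter.1 hu
    have hv' := mem_filter.1 hv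
    exact hc2 u hu'.1 v hv'.1 huv (hu'.2.trans hv'.2.symm))
  have h4 : Col G (Sᶜ \ C) (b - 1) := by
    refine ⟨fun v => c v - 1, fun u hu => ?_, fun u hu v hv huv => ?_⟩
    · have h5 := mem_sdiff.1 hu
      have h6 := hc1 u h5.1
      have h7 : c u ≠ 0 := fun h => h5.2 (mem_filter.2 ⟨h5.1, h⟩)
      show c u - 1 < b - 1
      omega
    · have h5 := mem_sdiff.1 hu
      have h6 := mem_sdiff.1 hv
      have h7 : c u ≠ 0 := fun h => h5.2 (mem_filter.2 ⟨h5.1, h⟩)
      have h8 : c v ≠ 0 := fun h => h6.2 (mem_filter.2 ⟨h6.1, h⟩)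
      have h9 := hc2 u h5.1 v h6.1 huv
      show c u - 1 ≠ c v - 1
      omega
  refine hG (((col_union h3 h4).mono fun v _ => ?_).mono_num (by omega))
  by_cases h5 : v ∈ S
  · exact mem_union_left _ (mem_union_left _ h5)
  · by_cases h6 : v ∈ C
    · exact mem_union_left _ (mem_union_right _ h6)
    · exact mem_union_right _ (mem_sdiff.2 ⟨mem_compl.2 h5, h6⟩)

/-- A clique and an independent set without a vertex complete to the clique. -/
theorem col_clique_union {Q C : Finset V} (hC : Ind G C) (hQC : Disjoint Q C)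
    (h : ∀ v ∈ C, ∃ q ∈ Q, ¬ G.Adj q v) : Col G (Q ∪ C) Q.card := by
  classical
  have _ := hQC
  choose! f hfQ hf using h
  let e := Fintype.equivFin V
  have he : ∀ u v : V, (e u : ℕ) = e v → u = v := fun u v h => e.injective (Fin.ext h)
  refine col_card_le (c := fun v => if v ∈ Q then (e v : ℕ) else e (f v))
    (R := Q.image fun v => (e v : ℕ)) ?_ ?_ card_image_le
  · intro u hu v hv huv
    by_cases h2 : u ∈ Q <;> by_cases h3 : v ∈ Q <;> simp only [h2, h3, if_true, if_false]
    · exact fun h => huv.ne (he _ _ h)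
    · have h4 := (mem_union.1 hv).resolve_left h3
      intro h
      rw [he _ _ h] at huv
      exact hf v h4 huv
    · have h4 := (mem_union.1 hu).resolve_left h2
      intro h
      rw [← he _ _ h] at huv
      exact hf u h4 huv.symm
    · exact absurd huv (hC u ((mem_union.1 hu).resolve_left h2) v
        ((mem_union.1 hv).resolve_left h3))
  · intro u hu
    by_cases h2 : u ∈ Q
    · simp only [h2, if_true]
      exact mem_image_of_mem _ h2
    · simp only [h2, if_false]
      exact mem_image_of_mem (fun v => (e v : ℕ)) (hfQ u ((mem_union.1 hu).resolve_left h2))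

theorem ge_clique {Q : Finset V} (hQ : Cl G Q) : Ge G Q Q.card := fun m hm => by
  by_contra h
  exact not_col_of_clique hQ (not_le.1 h) hm

/-- The main lemma. -/
theorem split_link {Q H : Finset V} {j k b : ℕ} (hQ : Cl G Q) (hH : H ⊆ nb G Q)
    (hHj : Ge G H j) (hrob : ∀ C ⊆ nb G Q, Disjoint H C → Ind G C → Col G (H ∪ C) j)
    (hb : 1 ≤ b) (hj : 1 ≤ Q.card + j) (hk : Q.card + j + b = k + 1)
    (hG : ¬ Col G univ k) : Ge G (Q ∪ H) (Q.card + j) ∧ ¬ Col G (Q ∪ H)ᶜ b := by
  classical
  refine ⟨ge_union (fun u hu v hv => mem_nb.1 (hH hv) u hu) (ge_clique hQ) hHj, ?_⟩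
  refine split_of_robust (a := Q.card + j - 1) hb (by
    have h1 : Q.card + j - 1 + b = k := by omega
    rwa [h1]) fun C hC hCi => ?_
  have h1 : Q.card + j - 1 + 1 = j + Q.card := by omega
  rw [h1]
  rw [disjoint_union_left] at hC
  have h2 := hrob (C ∩ nb G Q) inter_subset_right (hC.2.mono_right inter_subset_left)
    (hCi.mono inter_subset_left)
  have h3 := col_clique_union (G := G) (Q := Q) (C := C \ nb G Q) (hCi.mono sdiff_subset)
    (hC.1.mono_right sdiff_subset) fun v hv => by
      have h4 := (mem_sdiff.1 hv).2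
      rw [mem_nb] at h4
      push Not at h4
      exact h4
  refine (col_union h2 h3).mono fun v hv => ?_
  rcases mem_union.1 hv with h | h
  · rcases mem_union.1 h with h | h
    · exact mem_union_right _ (mem_union_left _ h)
    · exact mem_union_left _ (mem_union_left _ h)
  · by_cases h5 : v ∈ nb G Q
    · exact mem_union_left _ (mem_union_right _ (mem_inter.2 ⟨h, h5⟩))
    · exact mem_union_right _ (mem_union_right _ (mem_sdiff.2 ⟨h, h5⟩))

/-- `L` is a union of components of the graph induced on the common neighbours of `Q`. -/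
def Cp (G : SimpleGraph V) (Q L : Finset V) : Prop :=
  L ⊆ nb G Q ∧ ∀ u ∈ L, ∀ v ∈ nb G Q, v ∉ L → ¬ G.Adj u v

/-- A set which is closed in a union of components. -/
theorem rob_of_cp {Q L H : Finset V} {j : ℕ} (hL : Cp G Q L) (hHL : H ⊆ L) (hj : 1 ≤ j)
    (hrob : ∀ C ⊆ L, Disjoint H C → Ind G C → Col G (H ∪ C) j) :
    ∀ C ⊆ nb G Q, Disjoint H C → Ind G C → Col G (H ∪ C) j := by
  classical
  intro C hC hd hCi
  obtain ⟨c, hc1, hc2⟩ := hrob (C ∩ L) inter_subset_right (hd.mono_right inter_subset_left)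
    (hCi.mono inter_subset_left)
  have hin : ∀ v ∈ H ∪ C, v ∈ L → v ∈ H ∪ C ∩ L := fun v hv hvL => by
    rcases mem_union.1 hv with h | h
    · exact mem_union_left _ h
    · exact mem_union_right _ (mem_inter.2 ⟨h, hvL⟩)
  have hout : ∀ v ∈ H ∪ C, v ∉ L → v ∈ C := fun v hv hvL => by
    rcases mem_union.1 hv with h | h
    · exact absurd (hHL h) hvL
    · exact h
  refine ⟨fun v => if v ∈ L then c v else 0, fun u hu => ?_, fun u hu v hv huv => ?_⟩
  · by_cases h : u ∈ L
    · simp only [h, if_true]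
      exact hc1 u (hin u hu h)
    · simp only [h, if_false]
      omega
  · by_cases h : u ∈ L <;> by_cases h' : v ∈ L
    · simp only [h, h', if_true]
      exact hc2 u (hin u hu h) v (hin v hv h') huv
    · exact absurd huv (hL.2 u h v (hC (hout v hv h')) h')
    · exact absurd huv.symm (hL.2 v h' u (hC (hout u hu h)) h)
    · exact absurd huv (hCi u (hout u hu h) v (hout v hv h'))

/-- The case `H = L`. -/
theorem split_chromatic {Q L : Finset V} {j k b : ℕ} (hQ : Cl G Q) (hL : Cp G Q L)
    (hge : Ge G L j) (hcol : Col G L j) (hb : 1 ≤ b) (hj : 1 ≤ j)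
    (hk : Q.card + j + b = k + 1) (hG : ¬ Col G univ k) :
    Ge G (Q ∪ L) (Q.card + j) ∧ ¬ Col G (Q ∪ L)ᶜ b := by
  classical
  refine split_link hQ hL.1 hge (rob_of_cp hL (Subset.refl _) hj fun C hC hd _ => ?_) hb
    (by omega) hk hG
  have h1 : C = ∅ := by
    rw [eq_empty_iff_forall_notMem]
    exact fun v hv => disjoint_left.1 hd (hC hv) hv
  rw [h1, union_empty]
  exact hcol

/-- The case of a component without triangles. -/
theorem split_odd {Q L : Finset V} {k b : ℕ} (hQ : Cl G Q) (hL : Cp G Q L) (h2 : ¬ Col G L 2)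
    (htri : ∀ K ⊆ L, Cl G K → K.card ≠ 3) (hb : 1 ≤ b)
    (hk : Q.card + 3 + b = k + 1) (hG : ¬ Col G univ k) :
    ∃ S, Ge G S (Q.card + 3) ∧ ¬ Col G Sᶜ b := by
  classical
  set G' : SimpleGraph V := within G (L : Set V) with hG'
  have hadj : ∀ u v, G'.Adj u v ↔ G.Adj u v ∧ u ∈ L ∧ v ∈ L := by
    intro u v
    rw [hG']
    simp [within]
  obtain ⟨O, hO1, hO2⟩ := exists_robust (G := G') (fun ⟨c, hc1, hc2⟩ => h2
    ⟨c, fun u _ => hc1 u (mem_univ u), fun u hu v hv huv =>
      hc2 u (mem_univ u) v (mem_univ v) ((hadj u v).2 ⟨huv, hu, hv⟩)⟩) (by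
    intro K hK hKc
    refine htri K (fun u hu => ?_) (fun u hu v hv huv => ((hadj u v).1 (hK u hu v hv huv)).1) hKc
    obtain ⟨v, hv, huv⟩ := exists_mem_ne (s := K) (by omega) u
    exact ((hadj u v).1 (hK u hu v hv huv.symm)).2.1)
  refine ⟨_, split_link (H := O ∩ L) (j := 3) hQ (inter_subset_right.trans hL.1) ?_
    (rob_of_cp hL inter_subset_right (by omega) ?_) hb (by omega) hk hG⟩
  · intro m hm
    by_contra hcon
    obtain ⟨c, hc1, hc2⟩ := hm.mono_num (n := 2) (by omega)
    refine hO1 ⟨fun v => if v ∈ L then c v else 0, fun u hu => ?_, fun u hu v hv huv => ?_⟩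
    · by_cases h : u ∈ L
      · simp only [h, if_true]
        exact hc1 u (mem_inter.2 ⟨hu, h⟩)
      · simp only [h, if_false]
        norm_num
    · obtain ⟨h3, h4, h5⟩ := (hadj u v).1 huv
      simp only [h4, h5, if_true]
      exact hc2 u (mem_inter.2 ⟨hu, h4⟩) v (mem_inter.2 ⟨hv, h5⟩) h3
  · intro C hC hd hCi
    obtain ⟨c, hc1, hc2⟩ := hO2 C (disjoint_left.2 fun v hv hv' =>
      disjoint_left.1 hd (mem_inter.2 ⟨hv, hC hv'⟩) hv') (fun u hu v hv huv =>
        hCi u hu v hv ((hadj u v).1 huv).1)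
    have hsub : ∀ v ∈ O ∩ L ∪ C, v ∈ O ∪ C ∧ v ∈ L := by
      intro v hv
      rcases mem_union.1 hv with h | h
      · exact ⟨mem_union_left _ (mem_inter.1 h).1, (mem_inter.1 h).2⟩
      · exact ⟨mem_union_right _ h, hC h⟩
    exact ⟨c, fun u hu => hc1 u (hsub u hu).1, fun u hu v hv huv =>
      hc2 u (hsub u hu).1 v (hsub v hv).1 ((hadj u v).2 ⟨huv, (hsub u hu).2, (hsub v hv).2⟩)⟩

theorem cl_union {Q T : Finset V} (hQ : Cl G Q) (hT : Cl G T) (hTL : T ⊆ nb G Q) :
    Cl G (Q ∪ T) := by
  intro u hu v hv huv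
  rcases mem_union.1 hu with h | h <;> rcases mem_union.1 hv with h' | h'
  · exact hQ u h v h' huv
  · exact mem_nb.1 (hTL h') u h
  · exact (mem_nb.1 (hTL h) v h').symm
  · exact hT u h v h' huv

theorem disj_nb {Q T : Finset V} (hTL : T ⊆ nb G Q) : Disjoint Q T :=
  disjoint_left.2 fun v hv hv' => G.loopless.irrefl _ (mem_nb.1 (hTL hv') v hv)

/-- The general case. -/
theorem split_gen {Q L : Finset V} {j k b : ℕ} (hQ : Cl G Q) (hL : Cp G Q L) (hj : 1 ≤ j)
    (hge : Ge G L j) (h3 : j ≤ 3 ∨ Col G L j) (hfree : ∀ K ⊆ L, Cl G K → K.card ≠ j + 1)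
    (hb : 1 ≤ b) (hk : Q.card + j + b = k + 1) (hG : ¬ Col G univ k) :
    ∃ S, Ge G S (Q.card + j) ∧ ¬ Col G Sᶜ b := by
  classical
  rcases h3 with h3 | h3
  · by_cases hcl : ∃ T ⊆ L, Cl G T ∧ T.card = j
    · obtain ⟨T, hTL, hT, hTc⟩ := hcl
      refine ⟨_, split_link (H := T) (j := j) hQ (hTL.trans hL.1) ?_
        (rob_of_cp hL hTL hj fun C hC hd hCi => ?_) hb (by omega) hk hG⟩
      · have := ge_clique hT
        rwa [hTc] at this
      · have h := col_clique_union (G := G) (Q := T) (C := C) hCi hd fun v hv => by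
          by_contra hcon
          push Not at hcon
          have hvT : v ∉ T := fun h => G.loopless.irrefl _ (hcon v h)
          exact hfree (insert v T) (insert_subset (hC hv) hTL)
            (clique_insert hT fun u hu => (hcon u hu).symm)
            (by rw [card_insert_of_notMem hvT, hTc])
        rwa [hTc] at h
    · push Not at hcl
      have hj3 : j = 3 := by
        by_contra hne
        rcases Nat.lt_or_ge j 2 with h1 | h1
        · obtain rfl : j = 1 := by omega
          rcases L.eq_empty_or_nonempty with h2 | ⟨v, hv⟩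
          · have := hge 0 ⟨fun _ => 0, by simp [h2], by simp [h2]⟩
            omega
          · exact hcl {v} (singleton_subset_iff.2 hv) (by
              intro x hx y hy hxy
              rw [mem_singleton] at hx hy
              exact absurd (hx.trans hy.symm) hxy) (card_singleton v)
        · obtain rfl : j = 2 := by omega
          have h2 : ¬ Col G L 1 := fun h => by
            have := hge 1 h
            omega
          have h4 : ∃ u ∈ L, ∃ v ∈ L, G.Adj u v := by
            by_contra hcon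
            push Not at hcon
            exact h2 ⟨fun _ => 0, fun _ _ => by norm_num, fun u hu v hv huv =>
              absurd huv (hcon u hu v hv)⟩
          obtain ⟨u, hu, v, hv, huv⟩ := h4
          refine hcl {u, v} (insert_subset hu (singleton_subset_iff.2 hv)) (by
            intro x hx y hy hxy
            rw [mem_insert, mem_singleton] at hx hy
            rcases hx with rfl | rfl <;> rcases hy with rfl | rfl
            · exact absurd rfl hxy
            · exact huv
            · exact huv.symm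
            · exact absurd rfl hxy) (card_pair huv.ne)
      subst hj3
      exact split_odd hQ hL (fun h => by
        have := hge 2 h
        omega) hcl hb hk hG
  · exact ⟨_, split_chromatic hQ hL hge h3 hb hj hk hG⟩

/-- The case `b ≤ a + 1`, where `a + 1 = |Q| + j`. -/
theorem split_balanced {Q L : Finset V} {j k b : ℕ} (hQ : Cl G Q) (hL : Cp G Q L) (hj : 1 ≤ j)
    (hge : Ge G L j) (h3 : j ≤ 3 ∨ Col G L j) (hb : 1 ≤ b) (hbQ : b ≤ Q.card + j)
    (hfree : ∀ K, Cl G K → K.card ≠ k + 1)
    (hk : Q.card + j + b = k + 1) (hG : ¬ Col G univ k) :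
    ∃ S, Ge G S (Q.card + j) ∧ ¬ Col G Sᶜ b := by
  classical
  by_contra hcon
  push Not at hcon
  obtain ⟨i, rfl⟩ : ∃ i, j = i + 1 := ⟨j - 1, by omega⟩
  obtain rfl : k = (Q.card + i) + b := by omega
  have hC : ∀ S : Finset V, Cl G S → S.card = Q.card + i + 1 → Col G Sᶜ b := by
    intro S hS hSc
    refine hcon S ?_
    have := ge_clique hS
    rwa [hSc] at this
  have hno : ∀ K ⊆ L, Cl G K → K.card ≠ i + 1 + 1 := by
    intro T hTL hT hTc
    obtain ⟨T', hT', hT'c⟩ := exists_subset_card_eq (show i + 1 ≤ T.card by omega)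
    have hK₀ := cl_union hQ (hT.mono hT') ((hT'.trans hTL).trans hL.1)
    have hK₀c : (Q ∪ T').card = Q.card + i + 1 := by
      rw [card_union_of_disjoint (disj_nb ((hT'.trans hTL).trans hL.1)), hT'c]
      omega
    obtain ⟨c, hc⟩ := exists_complete hC hG hK₀ hK₀c
    obtain ⟨g, hg, -, hgS⟩ := hc 0 (by omega)
    have h1 := no_clique hC hG hfree hK₀ hK₀c (clique_insert hK₀ hgS)
    rw [card_insert_of_notMem hg, hK₀c] at h1
    omega
  obtain ⟨S, h5, h4⟩ := split_gen hQ hL hj hge h3 hno hb hk hG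
  exact h4 (hcon S h5)

end Pool.Agent.helper49.ELT
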