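import Pool.Agent.helper49.ELT.Clique

/-!
# Matchings in the complement of a graph

`Mt G H f`: `f` is an involution whose proper pairs are pairs of vertices of `H` which are not
adjacent in `G`, that is, a matching of the complement of `G[H]`. `Ex H f` is the set of vertices
of `H` missed by the matching.
-/

set_option linter.unusedSectionVars false

namespace Pool.Agent.helper49.ELT

open Finset Pool.Agent.helper95.ELT

section orbit

variable {V : Type*} [Fintype V] [DecidableEq V]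

/-- The alternating path which starts at a fixed point `d` of `g`. -/
theorem exists_orbit {f g : V → V} (hf : ∀ v, f (f v) = v) (hg : ∀ v, g (g v) = v) {d : V}
    (hd : g d = d) :
    ∃ Z : Finset V, d ∈ Z ∧ (∀ v ∈ Z, f v ∈ Z) ∧ (∀ v ∈ Z, g v ∈ Z) ∧
      ∀ x ∈ Z, f x = x → (∀ y ∈ Z, f y = y → y = x) ∧ ∀ y ∈ Z, g y = y → y = d := by
  classical
  let pf : Equiv.Perm V := ⟨f, f, hf, hf⟩
  let pg : Equiv.Perm V := ⟨g, g, hg, hg⟩
  have hff : pf * pf = 1 := Equiv.ext hf
  have hgg : pg * pg = 1 := Equiv.ext hg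
  have hfi : pf⁻¹ = pf := inv_eq_of_mul_eq_one_left hff
  have hgi : pg⁻¹ = pg := inv_eq_of_mul_eq_one_left hgg
  set σ : Equiv.Perm V := pg * pf with hσ
  have hσi : σ⁻¹ = pf * pg := by rw [hσ, mul_inv_rev, hfi, hgi]
  have h1 : SemiconjBy pf σ σ⁻¹ := by
    rw [SemiconjBy, hσi, hσ, mul_assoc]
  have h2 : SemiconjBy pg σ σ⁻¹ := by
    rw [SemiconjBy, hσi, hσ, ← mul_assoc, hgg, one_mul, mul_assoc, hgg, mul_one]
  have hfd : f d = (σ⁻¹) d := by
    rw [hσi]
    show f d = f (g d)
    rw [hd]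
  have hfp : ∀ i : ℤ, f ((σ ^ i) d) = (σ ^ (-i - 1)) d := by
    intro i
    have h3 := h1.zpow_right i
    have h4 : (pf * σ ^ i) d = ((σ⁻¹) ^ i * pf) d := by rw [h3.eq]
    rw [Equiv.Perm.mul_apply, Equiv.Perm.mul_apply] at h4
    have h5 : pf d = (σ⁻¹) d := hfd
    rw [h5, inv_zpow'] at h4
    have h6 : (σ ^ (-i - 1)) d = (σ ^ (-i)) ((σ⁻¹) d) := by
      rw [zpow_sub_one, Equiv.Perm.mul_apply]
    rw [h6]
    exact h4
  have hgp : ∀ i : ℤ, g ((σ ^ i) d) = (σ ^ (-i)) d := by
    intro i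
    have h3 := h2.zpow_right i
    have h4 : (pg * σ ^ i) d = ((σ⁻¹) ^ i * pg) d := by rw [h3.eq]
    rw [Equiv.Perm.mul_apply, Equiv.Perm.mul_apply] at h4
    have h5 : pg d = d := hd
    rw [h5, inv_zpow'] at h4
    exact h4
  -- the stabiliser of `d`
  have hst : ∀ m n : ℤ, (σ ^ m) d = (σ ^ n) d → (σ ^ (m - n)) d = d := by
    intro m n h
    rw [sub_eq_neg_add, zpow_add, Equiv.Perm.mul_apply, h, ← Equiv.Perm.mul_apply, ← zpow_add,
      neg_add_cancel, zpow_zero, Equiv.Perm.one_apply]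
  have hmul : ∀ m n : ℤ, (σ ^ m) d = d → (σ ^ (m * n)) d = d := by
    intro m n h
    have h3 : Function.IsFixedPt (σ ^ m : Equiv.Perm V) d := h
    rw [zpow_mul]
    exact Equiv.Perm.zpow_apply_eq_self_of_apply_eq_self h n
  have hadd : ∀ m n : ℤ, (σ ^ m) d = d → (σ ^ n) d = d → (σ ^ (m + n)) d = d := by
    intro m n h h'
    rw [zpow_add, Equiv.Perm.mul_apply, h', h]
  refine ⟨univ.filter fun x => ∃ i : ℤ, x = (σ ^ i) d, ?_, ?_, ?_, ?_⟩
  · simp only [mem_filter, mem_univ, true_and]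
    exact ⟨0, by simp⟩
  · simp only [mem_filter, mem_univ, true_and]
    rintro v ⟨i, rfl⟩
    exact ⟨_, hfp i⟩
  · simp only [mem_filter, mem_univ, true_and]
    rintro v ⟨i, rfl⟩
    exact ⟨_, hgp i⟩
  · simp only [mem_filter, mem_univ, true_and]
    rintro x ⟨i, rfl⟩ hx
    rw [hfp] at hx
    have hi : (σ ^ (-(2 * i + 1))) d = d := by
      have := hst _ _ hx
      have h3 : -i - 1 - i = -(2 * i + 1) := by ring
      rwa [h3] at this
    refine ⟨?_, ?_⟩
    · rintro y ⟨j, rfl⟩ hy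
      rw [hfp] at hy
      have hj : (σ ^ (-(2 * j + 1))) d = d := by
        have := hst _ _ hy
        have h3 : -j - 1 - j = -(2 * j + 1) := by ring
        rwa [h3] at this
      have h5 : (σ ^ (j - i)) d = d := by
        have h6 := hadd _ _ (hmul _ (i * 2 + 1 - 1) hj) (hmul _ (-(2 * j)) hi)
        have h7 := hadd _ _ (hmul _ (-1) hj) (hmul _ 1 hi)
        -- `2 (j - i)` and `2 i + 1`
        have h8 : (σ ^ (2 * (j - i))) d = d := by
          have h9 : 2 * (j - i) = -(2 * j + 1) * -1 + -(2 * i + 1) * 1 := by ring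
          rw [h9]; exact h7
        have h9 : (j - i) = -(2 * i + 1) * (-(j - i)) + 2 * (j - i) * (-i) := by ring
        rw [h9]
        exact hadd _ _ (hmul _ _ hi) (hmul _ _ h8)
      have h6 : (σ ^ j) d = (σ ^ i) ((σ ^ (j - i)) d) := by
        rw [← Equiv.Perm.mul_apply, ← zpow_add]
        congr 2
        ring
      rw [h6, h5]
    · rintro y ⟨j, rfl⟩ hy
      rw [hgp] at hy
      have hj : (σ ^ (-(2 * j))) d = d := by
        have := hst _ _ hy
        have h3 : -j - j = -(2 * j) := by ring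
        rwa [h3] at this
      have h9 : j = -(2 * i + 1) * (-j) + -(2 * j) * i := by ring
      rw [h9]
      exact hadd _ _ (hmul _ _ hi) (hmul _ _ hj)

end orbit

variable {V : Type*} [Fintype V] [DecidableEq V] {G : SimpleGraph V} {H : Finset V}

/-- A matching of the complement of `G[H]`. -/
structure Mt (G : SimpleGraph V) (H : Finset V) (f : V → V) : Prop where
  inv : ∀ v, f (f v) = v
  mem : ∀ v, f v ≠ v → v ∈ H
  nadj : ∀ v, ¬ G.Adj v (f v)

/-- The vertices of `H` missed by the matching. -/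
def Ex (H : Finset V) (f : V → V) : Finset V := H.filter fun v => f v = v

theorem mem_Ex {f : V → V} {v : V} : v ∈ Ex H f ↔ v ∈ H ∧ f v = v := by simp [Ex]

theorem Mt.map_mem {f : V → V} (hf : Mt G H f) {v : V} (hv : v ∈ H) : f v ∈ H := by
  by_cases h : f v = v
  · rwa [h]
  · refine hf.mem _ fun h' => h ?_
    rw [hf.inv] at h'
    exact h'.symm

/-- Switching from `f` to `g` on a set closed under both. -/
theorem Mt.switch {f g : V → V} (hf : Mt G H f) (hg : Mt G H g) {Z : Finset V}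
    (hZf : ∀ v ∈ Z, f v ∈ Z) (hZg : ∀ v ∈ Z, g v ∈ Z) :
    Mt G H (fun v => if v ∈ Z then g v else f v) := by
  have hZf' : ∀ v, v ∉ Z → f v ∉ Z := fun v hv h => hv (by
    have := hZf _ h
    rwa [hf.inv] at this)
  refine ⟨fun v => ?_, fun v hv => ?_, fun v => ?_⟩
  · by_cases h : v ∈ Z
    · simp only [h, if_true, hZg v h, hg.inv]
    · simp only [h, if_false, hZf' v h, hf.inv]
  · by_cases h : v ∈ Z
    · simp only [h, if_true] at hv
      exact hg.mem v hv
    · simp only [h, if_false] at hv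
      exact hf.mem v hv
  · by_cases h : v ∈ Z
    · simp only [h, if_true]
      exact hg.nadj v
    · simp only [h, if_false]
      exact hf.nadj v

theorem mem_Ex_switch {f g : V → V} {Z : Finset V} {v : V} :
    v ∈ Ex H (fun v => if v ∈ Z then g v else f v) ↔
      (v ∈ Z ∧ v ∈ Ex H g) ∨ (v ∉ Z ∧ v ∈ Ex H f) := by
  by_cases h : v ∈ Z <;> simp [mem_Ex, h]

/-- Matching two missed vertices which are not adjacent in `G`. -/
theorem Mt.pair {f : V → V} (hf : Mt G H f) {x y : V} (hx : x ∈ Ex H f) (hy : y ∈ Ex H f)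
    (hxy : x ≠ y) (hadj : ¬ G.Adj x y) :
    ∃ h : V → V, Mt G H h ∧ Ex H h = ((Ex H f).erase x).erase y ∧ h x = y := by
  rw [mem_Ex] at hx hy
  refine ⟨fun v => if v = x then y else if v = y then x else f v, ⟨fun v => ?_, fun v hv => ?_,
    fun v => ?_⟩, ?_, by simp⟩
  · by_cases h1 : v = x
    · simp only [h1, if_true]
      by_cases h2 : y = x
      · exact absurd h2.symm hxy
      · simp [h2]
    · by_cases h2 : v = y
      · simp [h1, h2, Ne.symm hxy]
      · have h3 : f v ≠ x := fun h => h1 (by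
          rw [← hf.inv v, h, hx.2])
        have h4 : f v ≠ y := fun h => h2 (by
          rw [← hf.inv v, h, hy.2])
        simp [h1, h2, h3, h4, hf.inv]
  · by_cases h1 : v = x
    · rw [h1]; exact hx.1
    · by_cases h2 : v = y
      · rw [h2]; exact hy.1
      · simp only [h1, h2, if_false] at hv
        exact hf.mem v hv
  · by_cases h1 : v = x
    · simp only [h1, if_true]
      exact hadj
    · by_cases h2 : v = y
      · simp only [h1, h2, if_false, if_true]
        rw [if_neg (Ne.symm hxy)]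
        exact fun h => hadj h.symm
      · simp only [h1, h2, if_false]
        exact hf.nadj v
  · ext v
    simp only [mem_erase, mem_Ex]
    by_cases h1 : v = x
    · simp [h1, Ne.symm hxy]
    · by_cases h2 : v = y
      · simp [h1, h2, Ne.symm hxy, hxy]
      · simp [h1, h2]

/-- Removing a pair from a matching. -/
theorem Mt.unpair {f : V → V} (hf : Mt G H f) {x : V} (hx : f x ≠ x) :
    ∃ h : V → V, Mt G H h ∧ Ex H h = insert x (insert (f x) (Ex H f)) := by
  have hxH := hf.mem x hx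
  have hfH := hf.map_mem hxH
  refine ⟨fun v => if v = x ∨ v = f x then v else f v, ⟨fun v => ?_, fun v hv => ?_,
    fun v => ?_⟩, ?_⟩
  · by_cases h1 : v = x ∨ v = f x
    · simp [h1]
    · push Not at h1
      have h2 : f v ≠ x := fun h => h1.2 (by rw [← h, hf.inv])
      have h3 : f v ≠ f x := fun h => h1.1 (by rw [← hf.inv v, h, hf.inv])
      simp [h1, h2, h3, hf.inv]
  · by_cases h1 : v = x ∨ v = f x
    · simp [h1] at hv
    · simp only [h1, if_false] at hv
      exact hf.mem v hv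
  · by_cases h1 : v = x ∨ v = f x
    · simp only [h1, if_true]
      exact G.loopless.irrefl v
    · simp only [h1, if_false]
      exact hf.nadj v
  · ext v
    simp only [mem_insert, mem_Ex]
    by_cases h1 : v = x
    · simp [h1, hxH]
    · by_cases h2 : v = f x
      · simp [h2, hfH]
      · simp [h1, h2]

section max

variable {N : ℕ} (hmin : ∀ f : V → V, Mt G H f → 2 * N ≤ H.card + (Ex H f).card)

include hmin in
/-- The exchange property of the sets of missed vertices. -/
theorem exchange {f g : V → V} (hf : Mt G H f) (hg : Mt G H g)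
    (hgN : H.card + (Ex H g).card ≤ 2 * N) {d : V} (hd : d ∈ Ex H g) :
    ∃ e ∈ Ex H f, (∃ g', Mt G H g' ∧ H.card + (Ex H g').card ≤ 2 * N ∧ e ∈ Ex H g') ∧
      ∃ h, Mt G H h ∧ Ex H h = insert d ((Ex H f).erase e) := by
  classical
  rw [mem_Ex] at hd
  obtain ⟨Z, hdZ, hZf, hZg, hZ⟩ := exists_orbit hf.inv hg.inv hd.2
  -- a vertex of `Z` missed by `f`
  have h1 : ∃ e ∈ Z, e ∈ Ex H f := by
    by_contra hcon
    push Not at hcon
    have h2 := hmin _ (hg.switch hf hZg hZf)
    have h3 : Ex H (fun v => if v ∈ Z then f v else g v) ⊂ Ex H g := by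
      refine (ssubset_iff_of_subset fun v hv => ?_).2 ⟨d, mem_Ex.2 hd, fun h => ?_⟩
      · rcases mem_Ex_switch.1 hv with h | h
        · exact absurd h.2 (hcon v h.1)
        · exact h.2
      · rcases mem_Ex_switch.1 h with h | h
        · exact hcon d h.1 h.2
        · exact h.1 hdZ
    have h4 := card_lt_card h3
    omega
  obtain ⟨e, heZ, he⟩ := h1
  have he' := mem_Ex.1 he
  obtain ⟨h5, h6⟩ := hZ e heZ he'.2
  refine ⟨e, he, ⟨_, hg.switch hf hZg hZf, ?_, ?_⟩, _, hf.switch hg hZf hZg, ?_⟩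
  · have h7 : Ex H (fun v => if v ∈ Z then f v else g v) ⊆ insert e ((Ex H g).erase d) := by
      intro v hv
      rcases mem_Ex_switch.1 hv with h | h
      · exact mem_insert.2 (Or.inl (h5 v h.1 (mem_Ex.1 h.2).2))
      · exact mem_insert_of_mem (mem_erase.2 ⟨fun h' => h.1 (h' ▸ hdZ), h.2⟩)
    have h8 := (card_le_card h7).trans (card_insert_le _ _)
    rw [card_erase_of_mem (mem_Ex.2 hd)] at h8
    have h9 : 0 < (Ex H g).card := card_pos.2 ⟨d, mem_Ex.2 hd⟩
    omega
  · exact mem_Ex_switch.2 (Or.inl ⟨heZ, he⟩)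
  · ext v
    rw [mem_Ex_switch, mem_insert, mem_erase]
    constructor
    · rintro (h | h)
      · exact Or.inl (h6 v h.1 (mem_Ex.1 h.2).2)
      · exact Or.inr ⟨fun h' => h.1 (h' ▸ heZ), h.2⟩
    · rintro (h | h)
      · rw [h]
        exact Or.inl ⟨hdZ, mem_Ex.2 hd⟩
      · right
        refine ⟨fun hvZ => h.1 (h5 v hvZ (mem_Ex.1 h.2).2), h.2⟩

include hmin in
/-- The vertices missed by a maximum matching form a clique. -/
theorem adj_of_mem_Ex {f : V → V} (hf : Mt G H f) (hfN : H.card + (Ex H f).card ≤ 2 * N)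
    {x y : V} (hx : x ∈ Ex H f) (hy : y ∈ Ex H f) (hxy : x ≠ y) : G.Adj x y := by
  by_contra hcon
  obtain ⟨h, hh, hE, -⟩ := hf.pair hx hy hxy hcon
  have h1 := hmin h hh
  rw [hE, card_erase_of_mem (mem_erase.2 ⟨Ne.symm hxy, hy⟩), card_erase_of_mem hx] at h1
  have h2 : 2 ≤ (Ex H f).card := by
    have h3 : ({x, y} : Finset V) ⊆ Ex H f := by
      intro v hv
      rcases mem_insert.1 hv with h | h
      · rwa [h]
      · rwa [mem_singleton.1 h]
    have h4 := card_le_card h3
    rwa [card_pair hxy] at h4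
  omega

include hmin in
/-- Final step: `G[H]` is complete. -/
theorem complete_of_matchings
    (h1 : ∀ x ∈ H, ∃ f, Mt G H f ∧ H.card + (Ex H f).card ≤ 2 * N ∧ x ∈ Ex H f)
    (h2 : ∀ x ∈ H, ∀ y ∈ H, G.Adj x y →
      ∃ f, Mt G H f ∧ H.card + (Ex H f).card ≤ 2 * N ∧ x ∈ Ex H f ∧ y ∈ Ex H f)
    (h3 : ∀ x ∈ H, ∀ y ∈ H, ∀ z ∈ H, x ≠ y → x ≠ z → y ≠ z → ¬ G.Adj x z → ¬ G.Adj y z →
      G.Adj x y) : ∀ x ∈ H, ∀ z ∈ H, x ≠ z → G.Adj x z := by
  intro x hx z hz hxz
  by_contra hcon
  obtain ⟨f, hf, hfN, hxf⟩ := h1 x hx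
  by_cases hzf : f z = z
  · exact hcon (adj_of_mem_Ex hmin hf hfN hxf (mem_Ex.2 ⟨hz, hzf⟩) hxz)
  · set y := f z with hy
    have hyH : y ∈ H := hf.map_mem hz
    have hyx : x ≠ y := fun h => hxz (by
      rw [← hf.inv z, ← hy, ← h]
      exact (mem_Ex.1 hxf).2.symm)
    have hyz : ¬ G.Adj y z := fun h => hf.nadj z h.symm
    have hadj := h3 x hx y hyH z hz hyx hxz hzf hcon hyz
    obtain ⟨f', hf', hfN', hxf', hyf'⟩ := h2 x hx y hyH hadj
    obtain ⟨g, hg, hgN, hzg⟩ := h1 z hz
    obtain ⟨e, he, -, h, hh, hE⟩ := exchange hmin hf' hg hgN hzg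
    have hhN : H.card + (Ex H h).card ≤ 2 * N := by
      have h4 : (Ex H h).card ≤ (Ex H f').card := by
        rw [hE]
        refine (card_insert_le _ _).trans ?_
        rw [card_erase_of_mem he]
        have : 0 < (Ex H f').card := card_pos.2 ⟨e, he⟩
        omega
      omega
    have hzh : z ∈ Ex H h := by rw [hE]; exact mem_insert_self _ _
    by_cases hex : e = x
    · have hyh : y ∈ Ex H h := by
        rw [hE]
        exact mem_insert_of_mem (mem_erase.2 ⟨fun h => hyx (hex ▸ h.symm), hyf'⟩)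
      exact hyz (adj_of_mem_Ex hmin hh hhN hyh hzh hzf)
    · have hxh : x ∈ Ex H h := by
        rw [hE]
        exact mem_insert_of_mem (mem_erase.2 ⟨Ne.symm hex, hxf'⟩)
      exact hcon (adj_of_mem_Ex hmin hh hhN hxh hzh hxz)

end max

end Pool.Agent.helper49.ELT
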