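import Pool.Agent.helper49.ELT.Weights

/-!
# Removing an edge

`false_of_pairs`: Let `R` be a vertex set without three independent vertices such that `R` is not
`(b + 1)`-colourable, has no clique with `b + 2` vertices, and such that `R` without the ends of
an edge is always `b`-colourable. This is impossible. (Gallai's argument for maximum matchings of
the complement.) With this we prove `false_of_weight_one`, the case `a = 1` of the theorem on
fractional cliques.
-/

set_option linter.unusedSectionVars false

namespace Pool.Agent.helper49.ELT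

open Finset Pool.Agent.helper95.ELT

variable {V : Type*} [Fintype V] [DecidableEq V] {G : SimpleGraph V} {w : V → ℝ}

/-- `f` is a matching of the complement of `G` on `R`, as an involution. -/
structure Mat (G : SimpleGraph V) (R : Finset V) (f : V → V) : Prop where
  mem : ∀ v ∈ R, f v ∈ R
  inv : ∀ v ∈ R, f (f v) = v
  nadj : ∀ v ∈ R, f v ≠ v → ¬ G.Adj v (f v)

/-- The fixed points. -/
def fix (R : Finset V) (f : V → V) : Finset V := R.filter fun v => f v = v

/-- Representatives of the orbits. -/
noncomputable def rep (R : Finset V) (f : V → V) : Finset V :=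
  R.filter fun v => Fintype.equivFin V v ≤ Fintype.equivFin V (f v)

theorem two_mul_rep {R : Finset V} {f : V → V} (hf : Mat G R f) :
    2 * (rep R f).card = R.card + (fix R f).card := by
  classical
  set e := Fintype.equivFin V
  set R₁ : Finset V := R.filter fun v => e v < e (f v) with hR₁
  set R₂ : Finset V := R.filter fun v => e (f v) < e v with hR₂
  have h1 : R₁.card = R₂.card := by
    refine card_bij' (fun v _ => f v) (fun v _ => f v) ?_ ?_ ?_ ?_
    · intro v hv
      have h := mem_filter.1 hv
      exact mem_filter.2 ⟨hf.mem v h.1, by rw [hf.inv v h.1]; exact h.2⟩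
    · intro v hv
      have h := mem_filter.1 hv
      exact mem_filter.2 ⟨hf.mem v h.1, by rw [hf.inv v h.1]; exact h.2⟩
    · intro v hv
      exact hf.inv v (mem_filter.1 hv).1
    · intro v hv
      exact hf.inv v (mem_filter.1 hv).1
  have h2 : rep R f = fix R f ∪ R₁ := by
    ext v
    simp only [rep, fix, hR₁, mem_union, mem_filter]
    constructor
    · rintro ⟨h, h'⟩
      rcases eq_or_lt_of_le h' with h'' | h''
      · exact Or.inl ⟨h, (e.injective h'').symm⟩
      · exact Or.inr ⟨h, h''⟩
    · rintro (⟨h, h'⟩ | ⟨h, h'⟩)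
      · exact ⟨h, by rw [h']⟩
      · exact ⟨h, h'.le⟩
  have h3 : R = (fix R f ∪ R₁) ∪ R₂ := by
    ext v
    simp only [fix, hR₁, hR₂, mem_union, mem_filter]
    constructor
    · intro h
      rcases lt_trichotomy (e v) (e (f v)) with h' | h' | h'
      · exact Or.inl (Or.inr ⟨h, h'⟩)
      · exact Or.inl (Or.inl ⟨h, (e.injective h').symm⟩)
      · exact Or.inr ⟨h, h'⟩
    · rintro ((h | h) | h) <;> exact h.1
  have h4 : Disjoint (fix R f) R₁ := disjoint_left.2 fun v hv hv' => by
    have h5 := (mem_filter.1 hv').2
    rw [(mem_filter.1 hv).2] at h5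
    exact lt_irrefl _ h5
  have h5 : Disjoint (fix R f ∪ R₁) R₂ := disjoint_left.2 fun v hv hv' => by
    have h6 := (mem_filter.1 hv').2
    rcases mem_union.1 hv with h | h
    · rw [(mem_filter.1 h).2] at h6
      exact lt_irrefl _ h6
    · exact lt_asymm h6 (mem_filter.1 h).2
  have h6 : R.card = (fix R f).card + R₁.card + R₂.card := by
    conv_lhs => rw [h3]
    rw [card_union_of_disjoint h5, card_union_of_disjoint h4]
  have h7 : (rep R f).card = (fix R f).card + R₁.card := by
    rw [h2, card_union_of_disjoint h4]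
  omega

theorem Mat.col {R : Finset V} {f : V → V} (hf : Mat G R f) : Col G R (rep R f).card := by
  classical
  set e := Fintype.equivFin V
  have he : ∀ u v : V, (e u : ℕ) = e v → u = v := fun u v h => e.injective (Fin.ext h)
  refine col_card_le (c := fun v => if e v ≤ e (f v) then (e v : ℕ) else e (f v))
    (R := (rep R f).image fun v => (e v : ℕ)) ?_ ?_ card_image_le
  · intro u hu v hv huv h
    have h0 : f u = v → False := fun h' => by
      refine hf.nadj u hu ?_ (by rw [h']; exact huv)
      rw [h']
      exact huv.ne'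
    have h0' : f v = u → False := fun h' => by
      refine hf.nadj v hv ?_ (by rw [h']; exact huv.symm)
      rw [h']
      exact huv.ne
    by_cases h1 : e u ≤ e (f u) <;> by_cases h2 : e v ≤ e (f v) <;>
      simp only [h1, h2, if_true, if_false] at h
    · exact huv.ne (he _ _ h)
    · exact h0' (he _ _ h).symm
    · exact h0 (he _ _ h)
    · have h3 := he _ _ h
      have h4 : u = v := by rw [← hf.inv u hu, h3, hf.inv v hv]
      exact huv.ne h4
  · intro u hu
    by_cases h1 : e u ≤ e (f u)
    · simp only [h1, if_true]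
      exact mem_image_of_mem (fun v => (e v : ℕ)) (mem_filter.2 ⟨hu, h1⟩)
    · simp only [h1, if_false]
      refine mem_image_of_mem (fun v => (e v : ℕ)) (mem_filter.2 ⟨hf.mem u hu, ?_⟩)
      rw [hf.inv u hu]
      exact (not_le.1 h1).le

section

variable {R : Finset V} (hα : ∀ x ∈ R, ∀ y ∈ R, ∀ z ∈ R, x ≠ y → y ≠ z → x ≠ z →
  ¬ G.Adj x y → ¬ G.Adj y z → G.Adj x z)

include hα in
theorem exists_mat {S : Finset V} (hS : S ⊆ R) {m : ℕ} (h : Col G S m) :
    ∃ f, Mat G R f ∧ (∀ v ∈ R, v ∉ S → f v = v) ∧ S.card + (fix S f).card ≤ 2 * m := by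
  classical
  obtain ⟨c, h1, h2⟩ := h
  set P : V → V → Prop := fun v u => v ∈ S ∧ u ∈ S ∧ u ≠ v ∧ c u = c v with hP
  have huniq : ∀ v u u', P v u → P v u' → u = u' := by
    rintro v u u' ⟨hv, hu, hne, hc⟩ ⟨-, hu', hne', hc'⟩
    by_contra hcon
    have h3 : ¬ G.Adj u v := fun h => h2 u hu v hv h hc
    have h4 : ¬ G.Adj v u' := fun h => h2 v hv u' hu' h hc'.symm
    exact h2 u hu u' hu' (hα u (hS hu) v (hS hv) u' (hS hu') hne hne'.symm hcon h3 h4)
      (hc.trans hc'.symm)
  set f : V → V := fun v => if h : ∃ u, P v u then h.choose else v with hf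
  have hfP : ∀ v u, P v u → f v = u := fun v u h => by
    have h3 : ∃ u, P v u := ⟨u, h⟩
    have h4 : f v = h3.choose := by rw [hf]; simp only [h3, dif_pos]
    rw [h4]
    exact huniq v _ _ h3.choose_spec h
  have hfN : ∀ v, (¬ ∃ u, P v u) → f v = v := fun v h => by
    rw [hf]; simp only [h, dif_neg, not_false_iff]
  have hsymm : ∀ v u, P v u → P u v := fun v u h => ⟨h.2.1, h.1, h.2.2.1.symm, h.2.2.2.symm⟩
  have hinv : ∀ v, f (f v) = v := by
    intro v
    by_cases h : ∃ u, P v u
    · obtain ⟨u, hu⟩ := h
      rw [hfP v u hu, hfP u v (hsymm v u hu)]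
    · rw [hfN v h, hfN v h]
  have hmemS : ∀ v ∈ S, f v ∈ S := by
    intro v hv
    by_cases h : ∃ u, P v u
    · obtain ⟨u, hu⟩ := h
      rw [hfP v u hu]
      exact hu.2.1
    · rw [hfN v h]
      exact hv
  have hout : ∀ v, v ∉ S → f v = v := fun v hv => hfN v fun ⟨u, hu⟩ => hv hu.1
  have hnadj : ∀ v, f v ≠ v → ¬ G.Adj v (f v) := by
    intro v hv
    by_cases h : ∃ u, P v u
    · obtain ⟨u, hu⟩ := h
      rw [hfP v u hu]
      exact fun h' => h2 v hu.1 u hu.2.1 h' hu.2.2.2.symm
    · exact absurd (hfN v h) hv
  refine ⟨f, ⟨fun v hv => ?_, fun v _ => hinv v, fun v _ => hnadj v⟩, fun v _ => hout v, ?_⟩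
  · by_cases h : v ∈ S
    · exact hS (hmemS v h)
    · rw [hout v h]
      exact hv
  · rw [← two_mul_rep (G := G) ⟨hmemS, fun v _ => hinv v, fun v _ => hnadj v⟩]
    refine Nat.mul_le_mul_left _ ?_
    have h3 : (rep S f).card ≤ (range m).card := by
      refine card_le_card_of_injOn c (fun v hv => ?_) ?_
      · simpa using h1 v (mem_filter.1 (mem_coe.1 hv)).1
      · intro u hu v hv huv
        have hu' := mem_filter.1 (mem_coe.1 hu)
        have hv' := mem_filter.1 (mem_coe.1 hv)
        by_contra hne
        have h4 : f u = v := hfP u v ⟨hu'.1, hv'.1, fun h => hne h.symm, huv.symm⟩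
        have h5 : f v = u := hfP v u ⟨hv'.1, hu'.1, hne, huv⟩
        have h6 := hu'.2
        have h7 := hv'.2
        rw [h4] at h6
        rw [h5] at h7
        exact hne ((Fintype.equivFin V).injective (le_antisymm h6 h7))
    rwa [card_range] at h3

include hα in
theorem false_of_pairs {b : ℕ} (hR : ¬ Col G R (b + 1)) (hfree : ∀ K, Cl G K → K.card ≠ b + 2)
    (hedge : ∀ x ∈ R, ∀ y ∈ R, G.Adj x y → Col G ((R.erase x).erase y) b) : False := by
  classical
  -- the minimal number of fixed points
  have hmin : ∀ f, Mat G R f → 2 * b + 4 ≤ R.card + (fix R f).card := by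
    intro f hf
    by_contra hcon
    have h1 := two_mul_rep hf
    exact hR (hf.col.mono_num (by omega))
  have hex : ∀ x ∈ R, ∀ y ∈ R, G.Adj x y → ∃ f, Mat G R f ∧ f x = x ∧ f y = y ∧
      R.card + (fix R f).card = 2 * b + 4 := by
    intro x hx y hy hxy
    obtain ⟨f, hf, h1, h2⟩ := exists_mat hα ((erase_subset _ _).trans (erase_subset _ _))
      (hedge x hx y hy hxy)
    have h3 : f x = x := h1 x hx (by simp)
    have h4 : f y = y := h1 y hy (by simp)
    refine ⟨f, hf, h3, h4, le_antisymm ?_ (hmin f hf)⟩
    have h5 : (fix R f).card ≤ (fix ((R.erase x).erase y) f).card + 2 := by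
      have h6 : fix R f ⊆ fix ((R.erase x).erase y) f ∪ {x, y} := by
        intro v hv
        have h7 := mem_filter.1 hv
        simp only [fix, mem_union, mem_filter, mem_erase, mem_insert, mem_singleton]
        tauto
      have h7 := (card_le_card h6).trans (card_union_le _ _)
      have h8 : ({x, y} : Finset V).card ≤ 2 := card_le_two
      omega
    have h6 : R.card ≤ ((R.erase x).erase y).card + 2 := by
      have h7 := card_erase_add_one hx
      have h8 := card_erase_add_one (s := R.erase x) (a := y) (mem_erase.2 ⟨hxy.ne', hy⟩)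
      omega
    omega
  -- two non-adjacent vertices are never both fixed
  have hboth : ∀ f, Mat G R f → R.card + (fix R f).card = 2 * b + 4 → ∀ x ∈ R, ∀ y ∈ R, x ≠ y →
      ¬ G.Adj x y → f x = x → f y ≠ y := by
    intro f hf hc x hx y hy hxy hna hfx hfy
    set g : V → V := fun v => if v = x then y else if v = y then x else f v with hg
    have hgx : g x = y := by simp [hg]
    have hgy : g y = x := by simp [hg, hxy.symm]
    have hgo : ∀ v, v ≠ x → v ≠ y → g v = f v := fun v h h' => by simp [hg, h, h']
    have hfo : ∀ v ∈ R, v ≠ x → v ≠ y → f v ≠ x ∧ f v ≠ y := by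
      intro v hv h h'
      refine ⟨fun h'' => h ?_, fun h'' => h' ?_⟩
      · rw [← hf.inv v hv, h'', hfx]
      · rw [← hf.inv v hv, h'', hfy]
    have hg' : Mat G R g := by
      refine ⟨fun v hv => ?_, fun v hv => ?_, fun v hv => ?_⟩
      · by_cases h : v = x
        · rw [h, hgx]; exact hy
        · by_cases h' : v = y
          · rw [h', hgy]; exact hx
          · rw [hgo v h h']; exact hf.mem v hv
      · by_cases h : v = x
        · rw [h, hgx, hgy]
        · by_cases h' : v = y
          · rw [h', hgy, hgx]
          · have h'' := hfo v hv h h'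
            rw [hgo v h h', hgo _ h''.1 h''.2, hf.inv v hv]
      · by_cases h : v = x
        · rw [h, hgx]; exact fun _ => hna
        · by_cases h' : v = y
          · rw [h', hgy]; exact fun _ h'' => hna h''.symm
          · rw [hgo v h h']; exact hf.nadj v hv
    have h1 := hmin g hg'
    have h2 : fix R g ⊂ fix R f := by
      rw [ssubset_iff_of_subset]
      · refine ⟨x, mem_filter.2 ⟨hx, hfx⟩, fun h => ?_⟩
        have := (mem_filter.1 h).2
        rw [hgx] at this
        exact hxy this.symm
      · intro v hv
        have h3 := mem_filter.1 hv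
        by_cases h : v = x
        · rw [h, hgx] at h3
          exact absurd h3.2.symm hxy
        · by_cases h' : v = y
          · rw [h', hgy] at h3
            exact absurd h3.2 hxy
          · rw [hgo v h h'] at h3
            exact mem_filter.2 h3
    have h3 := card_lt_card h2
    omega
  -- vertices have neighbours
  have hnb : ∀ v ∈ R, ∀ u ∈ R, u ≠ v → ¬ G.Adj v u → ∃ x ∈ R, G.Adj v x := by
    intro v hv u hu huv hvu
    by_contra hcon
    push Not at hcon
    have h1 : Cl G (R.erase v) := by
      intro x hx y hy hxy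
      have hx' := mem_erase.1 hx
      have hy' := mem_erase.1 hy
      exact hα x hx'.2 v hv y hy'.2 hx'.1 hy'.1.symm hxy (fun h => hcon x hx'.2 h.symm)
        (hcon y hy'.2)
    have h2 : (R.erase v).card ≤ b + 1 := by
      by_contra h3
      obtain ⟨K, hK, hKc⟩ := exists_subset_card_eq (s := R.erase v) (n := b + 2) (by omega)
      exact hfree K (h1.mono hK) hKc
    apply hR
    let e := Fintype.equivFin V
    refine col_card_le (c := fun x => if x = v then (e u : ℕ) else e x)
      (R := (R.erase v).image fun x => (e x : ℕ)) ?_ ?_ (card_image_le.trans h2)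
    · intro x hx y hy hxy
      by_cases h3 : x = v
      · rw [h3] at hxy
        exact absurd hxy (hcon y hy)
      · by_cases h4 : y = v
        · rw [h4] at hxy
          exact absurd hxy.symm (hcon x hx)
        · simp only [h3, h4, if_false]
          exact fun h => hxy.ne (e.injective (Fin.ext h))
    · intro x hx
      by_cases h3 : x = v
      · simp only [h3, if_true]
        exact mem_image_of_mem (fun x => (e x : ℕ)) (mem_erase.2 ⟨huv, hu⟩)
      · simp only [h3, if_false]
        exact mem_image_of_mem (fun x => (e x : ℕ)) (mem_erase.2 ⟨h3, hx⟩)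
  -- non-adjacency is transitive
  have htrans : ∀ u ∈ R, ∀ v ∈ R, ∀ x ∈ R, u ≠ v → v ≠ x → u ≠ x → ¬ G.Adj u v →
      ¬ G.Adj v x → ¬ G.Adj u x := by
    intro u hu v hv x hx huv hvx hux h1 h2 hadj
    obtain ⟨q, hq, hvq⟩ := hnb v hv x hx hvx.symm h2
    obtain ⟨f₀, hf₀, hf₀u, hf₀x, hf₀c⟩ := hex u hu x hx hadj
    obtain ⟨g₀, hg₀, hg₀v, -, hg₀c⟩ := hex v hv q hq hvq
    -- agreement
    set agr : (V → V) × (V → V) → ℕ := fun p =>
      (R.filter fun y => p.1 y = p.2 y ∧ p.1 y ≠ y).card with hagr
    obtain ⟨⟨f, g⟩, hfg, hmax⟩ := exists_max_image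
      ((univ : Finset ((V → V) × (V → V))).filter fun p => Mat G R p.1 ∧ p.1 u = u ∧ p.1 x = x ∧
        R.card + (fix R p.1).card = 2 * b + 4 ∧ Mat G R p.2 ∧ p.2 v = v ∧
        R.card + (fix R p.2).card = 2 * b + 4) agr
      ⟨(f₀, g₀), by simp [hf₀, hf₀u, hf₀x, hf₀c, hg₀, hg₀v, hg₀c]⟩
    simp only [mem_filter, mem_univ, true_and] at hfg hmax
    obtain ⟨hf, hfu, hfx, hfc, hg, hgv, hgc⟩ := hfg
    have hgu : g u ≠ u := hboth g hg hgc v hv u hu huv.symm (fun h => h1 h.symm) hgv
    have hgx : g x ≠ x := hboth g hg hgc v hv x hx hvx h2 hgv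
    have hfv : f v ≠ v := hboth f hf hfc u hu v hv huv h1 hfu
    -- another vertex which is fixed by `g` only
    have h3 : ∃ p ∈ R, p ≠ v ∧ g p = p ∧ f p ≠ p := by
      by_contra hcon
      push Not at hcon
      have h4 : fix R g ⊆ insert v (fix R f \ {u, x}) := by
        intro p hp
        have hp' := mem_filter.1 hp
        by_cases h5 : p = v
        · rw [h5]; exact mem_insert_self _ _
        · refine mem_insert_of_mem (mem_sdiff.2 ⟨mem_filter.2 ⟨hp'.1, hcon p hp'.1 h5 hp'.2⟩, ?_⟩)
          intro h6
          rcases mem_insert.1 h6 with h6 | h6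
          · rw [h6] at hp'; exact hgu hp'.2
          · rw [mem_singleton.1 h6] at hp'; exact hgx hp'.2
      have h5 := (card_le_card h4).trans (card_insert_le _ _)
      have h6 : ({u, x} : Finset V) ⊆ fix R f := by
        intro p hp
        rcases mem_insert.1 hp with h6 | h6
        · rw [h6]; exact mem_filter.2 ⟨hu, hfu⟩
        · rw [mem_singleton.1 h6]; exact mem_filter.2 ⟨hx, hfx⟩
      rw [card_sdiff_of_subset h6, card_pair hux] at h5
      have h7 := card_le_card h6
      rw [card_pair hux] at h7
      omega
    obtain ⟨p, hp, hpv, hgp, hfp⟩ := h3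
    set y := f p with hy
    have hyR : y ∈ R := hf.mem p hp
    have hpy : ¬ G.Adj p y := hf.nadj p hp hfp
    have hgy : g y ≠ y := hboth g hg hgc p hp y hyR (Ne.symm hfp) hpy hgp
    set z := g y with hz
    have hzR : z ∈ R := hg.mem y hyR
    have hgz : g z = y := hg.inv y hyR
    have hzp : z ≠ p := fun h => by
      rw [h, hgp] at hgz
      exact hfp hgz.symm
    have hyv : y ≠ v := fun h => by
      rw [h] at hz
      rw [hz, h] at hgy
      exact hgy hgv
    have hzv : z ≠ v := fun h => by
      rw [h, hgv] at hgz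
      exact hyv hgz.symm
    have hyp : y ≠ p := hfp
    have hzy : z ≠ y := hgy
    have hfy : f y = p := hf.inv p hp
    set g' : V → V := fun t => if t = p then y else if t = y then p else if t = z then z else g t
      with hg'
    have hg'p : g' p = y := by simp [hg']
    have hg'y : g' y = p := by simp [hg', hyp]
    have hg'z : g' z = z := by simp [hg', hzp, hzy]
    have hg'o : ∀ t, t ≠ p → t ≠ y → t ≠ z → g' t = g t := fun t h h' h'' => by
      simp [hg', h, h', h'']
    have hgo : ∀ t ∈ R, t ≠ p → t ≠ y → t ≠ z → g t ≠ p ∧ g t ≠ y ∧ g t ≠ z := by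
      intro t ht h h' h''
      refine ⟨fun h3 => h ?_, fun h3 => h'' ?_, fun h3 => h' ?_⟩
      · rw [← hg.inv t ht, h3, hgp]
      · rw [← hg.inv t ht, h3, hz]
      · rw [← hg.inv t ht, h3, hgz]
    have hg'm : Mat G R g' := by
      refine ⟨fun t ht => ?_, fun t ht => ?_, fun t ht => ?_⟩
      · by_cases h : t = p
        · rw [h, hg'p]; exact hyR
        · by_cases h' : t = y
          · rw [h', hg'y]; exact hp
          · by_cases h'' : t = z
            · rw [h'', hg'z]; exact hzR
            · rw [hg'o t h h' h'']; exact hg.mem t ht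
      · by_cases h : t = p
        · rw [h, hg'p, hg'y]
        · by_cases h' : t = y
          · rw [h', hg'y, hg'p]
          · by_cases h'' : t = z
            · rw [h'', hg'z, hg'z]
            · have h3 := hgo t ht h h' h''
              rw [hg'o t h h' h'', hg'o _ h3.1 h3.2.1 h3.2.2, hg.inv t ht]
      · by_cases h : t = p
        · rw [h, hg'p]; exact fun _ => hpy
        · by_cases h' : t = y
          · rw [h', hg'y]; exact fun _ h3 => hpy h3.symm
          · by_cases h'' : t = z
            · rw [h'', hg'z]; exact fun h3 => absurd rfl h3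
            · rw [hg'o t h h' h'']; exact hg.nadj t ht
    have hg'c : R.card + (fix R g').card = 2 * b + 4 := by
      have h4 : fix R g' = insert z ((fix R g).erase p) := by
        ext t
        simp only [fix, mem_filter, mem_insert, mem_erase]
        constructor
        · rintro ⟨ht, h⟩
          by_cases h5 : t = p
          · rw [h5, hg'p] at h; exact absurd h hyp
          · by_cases h6 : t = y
            · rw [h6, hg'y] at h; exact absurd h.symm hyp
            · by_cases h7 : t = z
              · exact Or.inl h7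
              · rw [hg'o t h5 h6 h7] at h
                exact Or.inr ⟨h5, ht, h⟩
        · rintro (h | ⟨h5, ht, h⟩)
          · rw [h]; exact ⟨hzR, hg'z⟩
          · refine ⟨ht, ?_⟩
            have h6 : t ≠ y := fun h6 => by rw [h6] at h; exact hgy h
            by_cases h7 : t = z
            · rw [h7]; exact hg'z
            · rw [hg'o t h5 h6 h7]; exact h
      have h5 : z ∉ (fix R g).erase p := fun h => by
        have h6 := (mem_filter.1 (mem_erase.1 h).2).2
        rw [hgz] at h6
        exact hzy h6.symm
      have h6 : p ∈ fix R g := mem_filter.2 ⟨hp, hgp⟩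
      have h7 := card_erase_add_one h6
      rw [h4, card_insert_of_notMem h5]
      omega
    have hg'v : g' v = v := by rw [hg'o v (Ne.symm hpv) (Ne.symm hyv) (Ne.symm hzv), hgv]
    have h4 := hmax (f, g') ⟨hf, hfu, hfx, hfc, hg'm, hg'v, hg'c⟩
    have h5 : (R.filter fun t => f t = g t ∧ f t ≠ t) ⊂ R.filter fun t => f t = g' t ∧ f t ≠ t := by
      rw [ssubset_iff_of_subset]
      · refine ⟨p, mem_filter.2 ⟨hp, ?_, hfp⟩, fun h => ?_⟩
        · rw [hg'p]
        · have h6 := (mem_filter.1 h).2.1
          rw [hgp] at h6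
          exact hfp h6
      · intro t ht
        have h6 := mem_filter.1 ht
        have h7 : t ≠ p := fun h => by
          rw [h, hgp] at h6
          exact hfp h6.2.1
        have h8 : t ≠ y := fun h => by
          rw [h, hfy] at h6
          exact hzp h6.2.1.symm
        have h9 : t ≠ z := fun h => by
          rw [h, hgz] at h6
          have h10 : f (f z) = p := by rw [h6.2.1, hfy]
          rw [hf.inv z hzR] at h10
          exact hzp h10
        exact mem_filter.2 ⟨h6.1, by rw [hg'o t h7 h8 h9]; exact h6.2.1, h6.2.2⟩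
    have h6 := card_lt_card h5
    simp only [hagr] at h4
    omega
  -- each vertex has at most one non-neighbour
  have hone : ∀ v ∈ R, ∀ u ∈ R, ∀ x ∈ R, u ≠ v → x ≠ v → ¬ G.Adj v u → ¬ G.Adj v x → u = x := by
    intro v hv u hu x hx huv hxv h1 h2
    by_contra hux
    exact htrans u hu v hv x hx huv hxv.symm hux (fun h => h1 h.symm) h2
      (hα u hu v hv x hx huv hxv.symm hux (fun h => h1 h.symm) h2)
  set P : V → V → Prop := fun v u => u ∈ R ∧ u ≠ v ∧ ¬ G.Adj v u with hP
  set f : V → V := fun v => if h : ∃ u, P v u then h.choose else v with hf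
  have hfP : ∀ v ∈ R, ∀ u, P v u → f v = u := fun v hv u h => by
    have h3 : ∃ u, P v u := ⟨u, h⟩
    have h4 : f v = h3.choose := by rw [hf]; simp only [h3, dif_pos]
    rw [h4]
    exact hone v hv _ h3.choose_spec.1 u h.1 h3.choose_spec.2.1 h.2.1 h3.choose_spec.2.2 h.2.2
  have hfN : ∀ v, (¬ ∃ u, P v u) → f v = v := fun v h => by
    rw [hf]; simp only [h, dif_neg, not_false_iff]
  have hmat : Mat G R f := by
    refine ⟨fun v hv => ?_, fun v hv => ?_, fun v hv h0 => ?_⟩
    · by_cases h : ∃ u, P v u
      · obtain ⟨u, hu⟩ := h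
        rw [hfP v hv u hu]; exact hu.1
      · rw [hfN v h]; exact hv
    · by_cases h : ∃ u, P v u
      · obtain ⟨u, hu⟩ := h
        rw [hfP v hv u hu, hfP u hu.1 v ⟨hv, hu.2.1.symm, fun h => hu.2.2 h.symm⟩]
      · rw [hfN v h, hfN v h]
    · by_cases h : ∃ u, P v u
      · obtain ⟨u, hu⟩ := h
        rw [hfP v hv u hu]; exact hu.2.2
      · exact absurd (hfN v h) h0
  have h1 := hmin f hmat
  have h2 := two_mul_rep hmat
  have h3 : Cl G (rep R f) := by
    intro u hu v hv huv
    have hu' := mem_filter.1 hu
    have hv' := mem_filter.1 hv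
    by_contra hna
    have h4 : f u = v := hfP u hu'.1 v ⟨hv'.1, huv.symm, hna⟩
    have h5 : f v = u := hfP v hv'.1 u ⟨hu'.1, huv, fun h => hna h.symm⟩
    have h6 := hu'.2
    have h7 := hv'.2
    rw [h4] at h6
    rw [h5] at h7
    exact huv ((Fintype.equivFin V).injective (le_antisymm h6 h7))
  obtain ⟨K, hK, hKc⟩ := exists_subset_card_eq (s := rep R f) (n := b + 2) (by omega)
  exact hfree K (h3.mono hK) hKc

end

/-- The case `a = 1`. -/
theorem false_of_weight_one {b : ℕ} (hw : FracClique G w)
    (hU : ∀ S : Finset V, Col G S 1 ∨ Col G Sᶜ b) (hG : ¬ Col G univ (1 + b))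
    (hfree : ∀ K, Cl G K → K.card ≠ 1 + b + 1) (hW : (1 : ℝ) + b ≤ ∑ v, w v) : False := by
  classical
  have hedge : ∀ x y, G.Adj x y → 1 ≤ w x + w y := by
    intro x y hxy
    have h1 := le_weight (a := 1) (b := b) hw hU (by simpa using hW) (S := {x, y})
      (not_col_of_clique (fun u hu v hv huv => by
        simp only [mem_insert, mem_singleton] at hu hv
        rcases hu with h | h <;> rcases hv with h' | h'
        · exact absurd (h.trans h'.symm) huv
        · rw [h, h']; exact hxy
        · rw [h, h']; exact hxy.symm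
        · exact absurd (h.trans h'.symm) huv) (by rw [card_pair hxy.ne]; norm_num))
    rw [sum_pair hxy.ne] at h1
    simpa using h1
  set R : Finset V := univ.filter fun v => 1 / 2 ≤ w v with hRdef
  have hRm : ∀ v, v ∈ R ↔ 1 / 2 ≤ w v := fun v => by simp [hRdef]
  have hlarge : ∀ v, v ∉ R → ∀ u, G.Adj v u → 1 / 2 < w u := by
    intro v hv u huv
    rw [hRm, not_le] at hv
    linarith [hedge v u huv]
  have hclq : ∀ K, Cl G K → K.card ≤ 1 + b := by
    intro K hK
    by_contra hcon
    obtain ⟨K', hK', hKc'⟩ := exists_subset_card_eq (s := K) (n := 1 + b + 1) (by omega)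
    exact hfree K' (hK.mono hK') hKc'
  refine false_of_pairs (G := G) (R := R) (b := b) ?_ ?_ (fun K hK h => hfree K hK (by omega)) ?_
  · intro x hx y hy z hz hxy hyz hxz h1 h2
    by_contra h3
    have h4 := hw.indep {x, y, z} (by
      intro p hp q hq hpq
      simp only [mem_insert, mem_singleton] at hp hq
      rcases hp with h | h | h <;> rcases hq with h' | h' | h' <;> rw [h, h'] at hpq
      · exact G.loopless.irrefl _ hpq
      · exact h1 hpq
      · exact h3 hpq
      · exact h1 hpq.symm
      · exact G.loopless.irrefl _ hpq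
      · exact h2 hpq
      · exact h3 hpq.symm
      · exact h2 hpq.symm
      · exact G.loopless.irrefl _ hpq)
    rw [sum_insert (by simp [hxy, hxz]), sum_pair hyz] at h4
    linarith [(hRm x).1 hx, (hRm y).1 hy, (hRm z).1 hz]
  · rintro ⟨c, h1, h2⟩
    apply hG
    -- colour the remaining vertices greedily
    have h3 : ∀ v, v ∉ R → ∃ i < b + 1, ∀ u, G.Adj v u → c u ≠ i := by
      intro v hv
      by_contra hcon
      push Not at hcon
      haveI : Nonempty V := ⟨v⟩
      choose! g hg1 hg2 using hcon
      set N : Finset V := (range (b + 1)).image g with hN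
      have h4 : Cl G (insert v N) := by
        refine clique_insert (fun x hx y hy hxy => ?_) fun x hx => ?_
        · obtain ⟨i, hi, rfl⟩ := mem_image.1 hx
          obtain ⟨j, hj, rfl⟩ := mem_image.1 hy
          refine hw.adj hxy ?_
          linarith [hlarge v hv _ (hg1 i (mem_range.1 hi)), hlarge v hv _ (hg1 j (mem_range.1 hj))]
        · obtain ⟨i, hi, rfl⟩ := mem_image.1 hx
          exact hg1 i (mem_range.1 hi)
      have h5 : v ∉ N := fun h => by
        obtain ⟨i, hi, h6⟩ := mem_image.1 h
        have := hg1 i (mem_range.1 hi)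
        rw [h6] at this
        exact G.loopless.irrefl _ this
      have h6 := hclq _ h4
      rw [card_insert_of_notMem h5, hN, card_image_of_injOn, card_range] at h6
      · omega
      · intro i hi j hj hij
        rw [← hg2 i (by simpa using hi), ← hg2 j (by simpa using hj)]
        exact congrArg c hij
    choose! d hd1 hd2 using h3
    refine ⟨fun v => if v ∈ R then c v else d v, fun u _ => ?_, fun u _ v _ huv => ?_⟩
    · by_cases h : u ∈ R
      · simp only [h, if_true]
        have := h1 u h
        omega
      · simp only [h, if_false]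
        have := hd1 u h
        omega
    · by_cases h : u ∈ R <;> by_cases h' : v ∈ R <;> simp only [h, h', if_true, if_false]
      · exact h2 u h v h' huv
      · exact hd2 v h' u huv.symm
      · exact fun h'' => hd2 u h v huv h''.symm
      · exfalso
        have h3 := hedge u v huv
        rw [hRm, not_le] at h h'
        linarith
  · intro x hx y hy hxy
    have h1 : ¬ Col G ({x, y} : Finset V) 1 := not_col_of_clique (fun u hu v hv huv => by
      simp only [mem_insert, mem_singleton] at hu hv
      rcases hu with h | h <;> rcases hv with h' | h'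
      · exact absurd (h.trans h'.symm) huv
      · rw [h, h']; exact hxy
      · rw [h, h']; exact hxy.symm
      · exact absurd (h.trans h'.symm) huv) (by rw [card_pair hxy.ne]; norm_num)
    refine ((hU _).resolve_left h1).mono fun v hv => ?_
    rw [mem_compl, mem_insert, mem_singleton, not_or]
    exact ⟨(mem_erase.1 (mem_erase.1 hv).2).1, (mem_erase.1 hv).1⟩

/-- A graph which is unsplit for `(a, b)`, not `(a + b)`-colourable and without a clique with
`a + b + 1` vertices has no fractional clique of weight at least `a + b`. -/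
theorem false_of_weight' {a b : ℕ} (hw : FracClique G w) (ha : 1 ≤ a) (hab : a ≤ b)
    (hU : ∀ S : Finset V, Col G S a ∨ Col G Sᶜ b) (hG : ¬ Col G univ (a + b))
    (hfree : ∀ K, Cl G K → K.card ≠ a + b + 1) (hW : (a : ℝ) + b ≤ ∑ v, w v) : False := by
  rcases eq_or_lt_of_le ha with h | h
  · subst h
    exact false_of_weight_one hw hU hG hfree (by simpa using hW)
  · exact false_of_weight hw h hab hU hG hfree hW

end Pool.Agent.helper49.ELT
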