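import Pool.Agent.helper49.ELT.Match
import Pool.Agent.helper49.ELT.Pairs

/-!
# Matchings and colourings

`exists_mt`: a proper colouring of a subset of `H` whose classes have at most two elements gives a
matching. `Mt.col_hosts`: a matching of `H` gives a colouring of `H` together with an independent
set whose vertices can be added to classes with one element.
-/

set_option linter.unusedSectionVars false

namespace Pool.Agent.helper49.ELT

open Finset Pool.Agent.helper95.ELT

variable {V : Type*} [Fintype V] [DecidableEq V] {G : SimpleGraph V} {H : Finset V}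

theorem Mt.mat {f : V → V} (hf : Mt G H f) : Mat G H f :=
  ⟨fun _ hv => hf.map_mem hv, fun v _ => hf.inv v, fun v _ _ => hf.nadj v⟩

theorem fix_eq_Ex {f : V → V} : fix H f = Ex H f := rfl

/-- A proper colouring of `S ⊆ H` gives a matching. -/
theorem exists_mt
    (hα : ∀ x ∈ H, ∀ y ∈ H, ∀ z ∈ H, x ≠ y → x ≠ z → y ≠ z → ¬ G.Adj x z → ¬ G.Adj y z →
      G.Adj x y) {S : Finset V} (hS : S ⊆ H) {c : V → ℕ}
    (hc : ∀ u ∈ S, ∀ v ∈ S, G.Adj u v → c u ≠ c v) :
    ∃ f : V → V, Mt G H f ∧ (∀ v, v ∉ S → f v = v) ∧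
      (∀ u ∈ S, ∀ v ∈ S, c u = c v → v = u ∨ v = f u) ∧ (∀ u, c (f u) = c u) ∧
      H.card + (Ex H f).card = 2 * (S.image c).card + 2 * (H \ S).card := by
  classical
  set P : V → V → Prop := fun v u => v ∈ S ∧ u ∈ S ∧ u ≠ v ∧ c u = c v with hP
  have huniq : ∀ v u u', P v u → P v u' → u = u' := by
    rintro v u u' ⟨hv, hu, hne, hc1⟩ ⟨-, hu', hne', hc'⟩
    by_contra hcon
    have h3 : ¬ G.Adj u v := fun h => hc u hu v hv h hc1
    have h4 : ¬ G.Adj u' v := fun h => hc u' hu' v hv h hc'
    exact hc u hu u' hu' (hα u (hS hu) u' (hS hu') v (hS hv) hcon hne hne' h3 h4)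
      (hc1.trans hc'.symm)
  set f : V → V := fun v => if h : ∃ u, P v u then h.choose else v with hf
  have hfP : ∀ v u, P v u → f v = u := fun v u h => by
    have h3 : ∃ u, P v u := ⟨u, h⟩
    have h4 : f v = h3.choose := by rw [hf]; simp only [h3, dif_pos]
    rw [h4]
    exact huniq v _ _ h3.choose_spec h
  have hfN : ∀ v, (¬ ∃ u, P v u) → f v = v := fun v h => by
    rw [hf]; simp only [h, dif_neg, not_false_iff]
  have hPsymm : ∀ v u, P v u → P u v := fun v u h => ⟨h.2.1, h.1, h.2.2.1.symm, h.2.2.2.symm⟩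
  have hcase : ∀ v, f v = v ∨ P v (f v) := fun v => by
    by_cases h : ∃ u, P v u
    · obtain ⟨u, hu⟩ := h
      rw [hfP v u hu]
      exact Or.inr hu
    · exact Or.inl (hfN v h)
  have hmt : Mt G H f := by
    refine ⟨fun v => ?_, fun v hv => ?_, fun v => ?_⟩
    · rcases hcase v with h | h
      · rw [h, h]
      · exact hfP _ _ (hPsymm _ _ h)
    · exact hS ((hcase v).resolve_left hv).1
    · rcases hcase v with h | h
      · rw [h]; exact G.loopless.irrefl v
      · exact fun h' => hc v h.1 _ h.2.1 h' h.2.2.2.symm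
  have hout : ∀ v, v ∉ S → f v = v := fun v hv => (hcase v).resolve_right fun h => hv h.1
  have hcls : ∀ u ∈ S, ∀ v ∈ S, c u = c v → v = u ∨ v = f u := by
    intro u hu v hv huv
    by_cases h : v = u
    · exact Or.inl h
    · exact Or.inr (hfP u v ⟨hu, hv, h, huv.symm⟩).symm
  have hcol : ∀ u, c (f u) = c u := fun u => by
    rcases hcase u with h | h
    · rw [h]
    · exact h.2.2.2
  refine ⟨f, hmt, hout, hcls, hcol, ?_⟩
  have hmat : Mat G S f := by
    refine ⟨fun v hv => ?_, fun v _ => hmt.inv v, fun v _ _ => hmt.nadj v⟩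
    rcases hcase v with h | h
    · rwa [h]
    · exact h.2.1
  have h1 := two_mul_rep hmat
  have h2 : (rep S f).card = (S.image c).card := by
    have h3 : S.image c = (rep S f).image c := by
      refine Subset.antisymm (fun i hi => ?_) (image_subset_image (filter_subset _ _))
      obtain ⟨v, hv, rfl⟩ := mem_image.1 hi
      by_cases h4 : Fintype.equivFin V v ≤ Fintype.equivFin V (f v)
      · exact mem_image_of_mem _ (mem_filter.2 ⟨hv, h4⟩)
      · refine mem_image.2 ⟨f v, mem_filter.2 ⟨hmat.mem v hv, ?_⟩, hcol v⟩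
        rw [hmt.inv]
        exact (not_le.1 h4).le
    rw [h3, card_image_of_injOn]
    intro u hu v hv huv
    have hu' := mem_filter.1 (mem_coe.1 hu)
    have hv' := mem_filter.1 (mem_coe.1 hv)
    rcases hcls u hu'.1 v hv'.1 huv with h | h
    · exact h.symm
    · have h5 := hu'.2
      have h6 := hv'.2
      rw [h, hmt.inv] at h6
      rw [h]
      exact (Fintype.equivFin V).injective (le_antisymm h5 h6)
  have h3 : (Ex H f).card = (fix S f).card + (H \ S).card := by
    rw [← card_union_of_disjoint]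
    · congr 1
      ext v
      simp only [mem_Ex, mem_union, fix, mem_filter, mem_sdiff]
      constructor
      · rintro ⟨h, h'⟩
        by_cases h4 : v ∈ S
        · exact Or.inl ⟨h4, h'⟩
        · exact Or.inr ⟨h, h4⟩
      · rintro (⟨h, h'⟩ | ⟨h, h'⟩)
        · exact ⟨hS h, h'⟩
        · exact ⟨h, hout v h'⟩
    · exact disjoint_left.2 fun v hv hv' => (mem_sdiff.1 hv').2 (mem_filter.1 hv).1
  have h4 : (H \ S).card + S.card = H.card := card_sdiff_add_card_eq_card hS
  omega

/-- A matching of `H` and hosts for the vertices of an independent set `J` give a colouring of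
`H ∪ J`. -/
theorem Mt.col_hosts {f : V → V} (hf : Mt G H f) {J : Finset V}
    (hJ : ∀ u ∈ J, ∀ v ∈ J, ¬ G.Adj u v) (hd : ∀ v ∈ J, v ∉ H) {φ : V → V}
    (h1 : ∀ z ∈ J, φ z ∈ Ex H f) (h2 : ∀ z ∈ J, ¬ G.Adj z (φ z)) {m : ℕ}
    (hm : H.card + (Ex H f).card ≤ 2 * m) : Col G (H ∪ J) m := by
  classical
  have h3 := two_mul_rep hf.mat
  rw [fix_eq_Ex] at h3
  set e := Fintype.equivFin V with he
  have hei : ∀ u v : V, (e u : ℕ) = e v → u = v := fun u v h => e.injective (Fin.ext h)
  set r : V → V := fun v => if e v ≤ e (f v) then v else f v with hr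
  have hr1 : ∀ v, r v = v ∨ r v = f v := fun v => by
    by_cases h : e v ≤ e (f v)
    · exact Or.inl (by simp [hr, h])
    · exact Or.inr (by simp [hr, h])
  have hr2 : ∀ u v, r u = r v → v = u ∨ v = f u := by
    intro u v h
    rcases hr1 u with h4 | h4 <;> rcases hr1 v with h5 | h5 <;> rw [h4, h5] at h
    · exact Or.inl h.symm
    · right
      rw [h, hf.inv]
    · exact Or.inr h.symm
    · left
      rw [← hf.inv v, ← h, hf.inv]
  have hr3 : ∀ v ∈ H, r v ∈ rep H f := by
    intro v hv
    by_cases h : e v ≤ e (f v)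
    · have h4 : r v = v := by simp [hr, h]
      rw [h4]
      exact mem_filter.2 ⟨hv, h⟩
    · have h4 : r v = f v := by simp [hr, h]
      rw [h4]
      refine mem_filter.2 ⟨hf.map_mem hv, ?_⟩
      rw [hf.inv]
      exact (not_le.1 h).le
  set ψ : V → V := fun v => if v ∈ H then v else φ v with hψ
  have hψH : ∀ v ∈ H, ψ v = v := fun v hv => by simp [hψ, hv]
  have hψJ : ∀ v ∈ J, ψ v = φ v := fun v hv => by simp [hψ, hd v hv]
  refine col_card_le (c := fun v => (e (r (ψ v)) : ℕ))
    (R := (rep H f).image fun v => (e v : ℕ)) ?_ ?_ (card_image_le.trans (by omega))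
  · intro u hu v hv huv h
    have h4 := hr2 _ _ (hei _ _ h)
    have key : ∀ u ∈ H, ∀ v ∈ J, (φ v = u ∨ φ v = f u) → ¬ G.Adj u v := by
      intro u hu v hv h5 h6
      have h7 : φ v = u := by
        rcases h5 with h5 | h5
        · exact h5
        · have h8 := (mem_Ex.1 (h1 v hv)).2
          rw [h5, hf.inv] at h8
          rw [h5, ← h8]
      exact h2 v hv (by rw [h7]; exact h6.symm)
    rcases mem_union.1 hu with hu' | hu' <;> rcases mem_union.1 hv with hv' | hv'
    · rw [hψH u hu', hψH v hv'] at h4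
      rcases h4 with h5 | h5
      · exact huv.ne h5.symm
      · rw [h5] at huv
        exact hf.nadj u huv
    · rw [hψH u hu', hψJ v hv'] at h4
      exact key u hu' v hv' h4 huv
    · rw [hψJ u hu', hψH v hv'] at h4
      refine key v hv' u hu' ?_ huv.symm
      rcases h4 with h5 | h5
      · exact Or.inl h5.symm
      · exact Or.inr (by rw [h5, hf.inv])
    · exact hJ u hu' v hv' huv
  · intro u hu
    rcases mem_union.1 hu with hu' | hu'
    · rw [hψH u hu']
      exact mem_image_of_mem (fun v => (e v : ℕ)) (hr3 u hu')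
    · rw [hψJ u hu']
      exact mem_image_of_mem (fun v => (e v : ℕ)) (hr3 _ (mem_Ex.1 (h1 u hu')).1)

/-- The number of colours of a matching. -/
theorem Mt.le_of_not_col {f : V → V} (hf : Mt G H f) {n : ℕ} (h : ¬ Col G H n) :
    2 * (n + 1) ≤ H.card + (Ex H f).card := by
  by_contra hcon
  have h1 := two_mul_rep hf.mat
  rw [fix_eq_Ex] at h1
  apply h
  have h2 := hf.col_hosts (J := ∅) (φ := id) (by simp) (by simp) (by simp) (by simp)
    (m := n) (by omega)
  simpa using h2

end Pool.Agent.helper49.ELT
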