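import Pool.Agent.helper49.ELT.Clique

/-!
# Fractional cliques of weight `a + b`

`false_of_weight`: a graph which is unsplit for `(a, b)`, `2 ≤ a ≤ b`, not `(a + b)`-colourable
and without a clique with `a + b + 1` vertices has no fractional clique of weight at least
`a + b`.
-/

set_option linter.unusedSectionVars false

namespace Pool.Agent.helper49.ELT

open Finset Pool.Agent.helper95.ELT

variable {V : Type*} [Fintype V] [DecidableEq V] {G : SimpleGraph V} {w : V → ℝ}

theorem exists_min_subset {B : Finset V} {c : ℝ} (hB : c < ∑ v ∈ B, w v) :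
    ∃ A ⊆ B, c < ∑ v ∈ A, w v ∧ ∀ z ∈ A, ∑ v ∈ A.erase z, w v ≤ c := by
  classical
  obtain ⟨A, hA, hmin⟩ := exists_min_image
    (B.powerset.filter fun A => c < ∑ v ∈ A, w v) Finset.card ⟨B, by simp [hB]⟩
  simp only [mem_filter, mem_powerset] at hA hmin
  refine ⟨A, hA.1, hA.2, fun z hz => ?_⟩
  by_contra hcon
  have h1 := hmin (A.erase z) ⟨(erase_subset _ _).trans hA.1, not_le.1 hcon⟩
  have h2 := card_erase_lt_of_mem hz
  omega

/-- The weight of a colourable set of non-neighbours of `e`. -/
theorem sum_le_of_nonadj (hw : FracClique G w) {A : Finset V} {m : ℕ} {e : V}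
    (hA : Col G A m) (he : ∀ z ∈ A, z ≠ e ∧ ¬ G.Adj e z) :
    ∑ v ∈ A, w v ≤ m * (1 - w e) := by
  obtain ⟨c, h1, h2⟩ := hA
  rw [← sum_fiberwise_of_maps_to (g := c) (t := range m) (fun u hu => mem_range.2 (h1 u hu))]
  calc ∑ i ∈ range m, ∑ v ∈ A with c v = i, w v ≤ ∑ _i ∈ range m, (1 - w e) := by
        refine sum_le_sum fun i _ => ?_
        have he' : e ∉ A.filter (fun v => c v = i) := fun h =>
          (he e (mem_filter.1 h).1).1 rfl
        have h3 := hw.indep (insert e (A.filter fun v => c v = i)) (by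
          intro p hp q hq hpq
          rcases mem_insert.1 hp with h | h
          · rcases mem_insert.1 hq with h' | h'
            · rw [h, h'] at hpq
              exact G.loopless.irrefl _ hpq
            · rw [h] at hpq
              exact (he q (mem_filter.1 h').1).2 hpq
          · rcases mem_insert.1 hq with h' | h'
            · rw [h'] at hpq
              exact (he p (mem_filter.1 h).1).2 hpq.symm
            · have hp' := mem_filter.1 h
              have hq' := mem_filter.1 h'
              exact h2 p hp'.1 q hq'.1 hpq (hp'.2.trans hq'.2.symm))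
        rw [sum_insert he'] at h3
        linarith
    _ = m * (1 - w e) := by rw [sum_const, card_range, nsmul_eq_mul]

section unsplit

variable {a b : ℕ} (hw : FracClique G w) (ha : 2 ≤ a) (hab : a ≤ b)
  (hU : ∀ S : Finset V, Col G S a ∨ Col G Sᶜ b)
  (hW : (a : ℝ) + b ≤ ∑ v, w v) (hK : ∀ K, Cl G K → K.card ≤ a)

include hw hU hW in
theorem le_weight {S : Finset V} (hS : ¬ Col G S a) : (a : ℝ) ≤ ∑ v ∈ S, w v := by
  have h1 := (hU S).resolve_left hS
  have h2 := hw.sum_le h1
  have h3 := sum_add_sum_compl S w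
  linarith

include hw hK in
theorem card_heavy : (univ.filter fun v => 1 / 2 < w v).card ≤ a := by
  refine hK _ fun u hu v hv huv => ?_
  rw [mem_filter] at hu hv
  exact hw.adj huv (by linarith [hu.2, hv.2])

include hw ha hU hW hK in
/-- Non-neighbours of a heaviest vertex of weight at most `1/2`. -/
theorem weight_nonadj {e : V} (he : w e ≤ 1 / 2) (hpos : 0 < w e)
    (hmax : ∀ v, w v ≤ 1 / 2 → w v ≤ w e) {Z : Finset V}
    (hZ : ∀ z ∈ Z, z ≠ e ∧ ¬ G.Adj e z) : ∑ v ∈ Z, w v ≤ a * (1 - w e) := by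
  classical
  by_contra hcon
  push Not at hcon
  obtain ⟨A, hAZ, h1, h2⟩ := exists_min_subset hcon
  have ha' : (2 : ℝ) ≤ a := by exact_mod_cast ha
  have h3 : (a : ℝ) ≤ ∑ v ∈ A, w v := by
    refine le_weight hw hU hW fun h => ?_
    have := sum_le_of_nonadj hw h fun z hz => hZ z (hAZ hz)
    linarith
  have h4 : A ⊆ univ.filter fun v => 1 / 2 < w v := by
    intro z hz
    have h5 := h2 z hz
    have h6 := add_sum_erase A w hz
    rw [mem_filter]
    refine ⟨mem_univ _, ?_⟩
    by_contra h7
    push Not at h7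
    have h8 := hmax z h7
    nlinarith
  have h5 : A.card ≤ a := (card_le_card h4).trans (card_heavy hw hK)
  have h6 : ∑ v ∈ A, w v ≤ ∑ _v ∈ A, (1 - w e) := by
    refine sum_le_sum fun z hz => ?_
    have h7 := hZ z (hAZ hz)
    have := hw.add_le_one h7.1.symm h7.2
    linarith
  rw [sum_const, nsmul_eq_mul] at h6
  have h7 : (A.card : ℝ) ≤ a := by exact_mod_cast h5
  have h8 : 0 ≤ 1 - w e := by linarith
  nlinarith

include hw ha hU hW hK in
/-- Neighbours of a heaviest vertex of weight at most `1/2`. -/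
theorem weight_adj {e : V} (he : w e ≤ 1 / 2) (hpos : 0 < w e)
    (hmax : ∀ v, w v ≤ 1 / 2 → w v ≤ w e) {N : Finset V} (hN : ∀ v, v ∈ N ↔ G.Adj e v) :
    (b : ℝ) + (a - 1) * w e ≤ ∑ v ∈ N, w v := by
  classical
  have h1 := weight_nonadj hw ha hU hW hK he hpos hmax
    (Z := univ.filter fun z => z ≠ e ∧ ¬ G.Adj e z) (by simp)
  have h2 : ∑ v, w v = w e + (∑ v ∈ univ.filter (fun z => z ≠ e ∧ ¬ G.Adj e z), w v +
      ∑ v ∈ N, w v) := by
    rw [← sum_union, ← sum_insert]
    · congr 1
      ext z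
      simp only [mem_univ, mem_insert, mem_union, mem_filter, true_and, true_iff, hN]
      tauto
    · simp [hN]
    · rw [disjoint_left]
      intro z hz hz'
      exact (mem_filter.1 hz).2.2 ((hN z).1 hz')
  linarith

include hw ha hU hW in
/-- Window in the neighbourhood of `e`. -/
theorem window {e : V} {A : Finset V} (hA : ∀ v ∈ A, G.Adj e v)
    (h : (a : ℝ) - 1 < ∑ v ∈ A, w v) : (a : ℝ) - w e ≤ ∑ v ∈ A, w v := by
  have h1 : ¬ Col G (insert e A) a := by
    intro h2
    have h3 : a = (a - 1) + 1 := by omega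
    rw [h3] at h2
    have h4 := hw.sum_le (col_of_insert_full hA h2)
    rw [Nat.cast_sub (by omega)] at h4
    push_cast at h4
    linarith
  have h2 := le_weight hw hU hW h1
  rw [sum_insert (fun h => G.loopless.irrefl _ (hA e h))] at h2
  linarith

include hw ha hab hU hW hK in
theorem weight_eq_half {e : V} (he : w e ≤ 1 / 2) (hpos : 0 < w e)
    (hmax : ∀ v, w v ≤ 1 / 2 → w v ≤ w e) : w e = 1 / 2 := by
  classical
  set N : Finset V := univ.filter fun v => G.Adj e v with hN
  have hNm : ∀ v, v ∈ N ↔ G.Adj e v := fun v => by simp [hN]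
  have h1 := weight_adj hw ha hU hW hK he hpos hmax hNm
  have ha' : (2 : ℝ) ≤ a := by exact_mod_cast ha
  have hab' : (a : ℝ) ≤ b := by exact_mod_cast hab
  set D : Finset V := N.filter fun v => 1 / 2 < w v with hD
  have h2 : (insert e D).card ≤ a := by
    refine hK _ (clique_insert (fun u hu v hv huv => ?_) fun u hu => ?_)
    · exact hw.adj huv (by linarith [(mem_filter.1 hu).2, (mem_filter.1 hv).2])
    · exact (hNm u).1 (mem_filter.1 hu).1
  rw [card_insert_of_notMem (fun h => G.loopless.irrefl _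
    ((hNm e).1 (mem_filter.1 h).1))] at h2
  have h3 : ∑ v ∈ D, w v ≤ (a : ℝ) - 1 := by
    have h4 : ∑ v ∈ D, w v ≤ ∑ _v ∈ D, (1 : ℝ) := sum_le_sum fun v _ => hw.le_one v
    rw [sum_const, nsmul_eq_mul, mul_one] at h4
    have h5 : (D.card : ℝ) + 1 ≤ a := by exact_mod_cast h2
    linarith
  obtain ⟨M, y, hy, hyM, hDM, hMN, h4, h5⟩ := exists_crossing hw (A := D) (B := N)
    (c := (a : ℝ) - 1) (filter_subset _ _) h3 (by nlinarith)
  have h6 := window hw ha hU hW (e := e) (A := insert y M) (fun v hv => (hNm v).1 (by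
    rcases mem_insert.1 hv with h | h
    · rw [h]; exact hy
    · exact hMN h)) h5
  rw [sum_insert hyM] at h6
  have h7 : w y ≤ w e := hmax y (by
    by_contra h8
    exact hyM (hDM (mem_filter.2 ⟨hy, not_le.1 h8⟩)))
  linarith

include hw ha hab hU hW hK in
/-- The situation around a vertex of weight `1/2`. -/
theorem crossing_half {x : V} (hx : w x = 1 / 2) {N A B : Finset V}
    (hN : ∀ v, v ∈ N ↔ G.Adj x v) (hAB : A ⊆ B) (hBN : B ⊆ N)
    (hA : ∑ v ∈ A, w v ≤ (a : ℝ) - 1) (hB : (a : ℝ) - 1 < ∑ v ∈ B, w v)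
    (hlight : ∀ v ∈ B, v ∉ A → w v ≤ 1 / 2) :
    ∃ M, A ⊆ M ∧ M ⊆ B ∧ ∑ v ∈ M, w v = (a : ℝ) - 1 ∧ ∃ y ∈ B, y ∉ M ∧ w y = 1 / 2 := by
  classical
  have _ := hab
  have _ := hK
  obtain ⟨M, y, hy, hyM, hAM, hMB, h4, h5⟩ := exists_crossing hw hAB hA hB
  have h6 := window hw ha hU hW (e := x) (A := insert y M) (fun v hv => (hN v).1 (hBN (by
    rcases mem_insert.1 hv with h | h
    · rw [h]; exact hy
    · exact hMB h))) h5
  rw [sum_insert hyM] at h6
  have h7 := hlight y hy fun h => hyM (hAM h)
  exact ⟨M, hAM, hMB, by linarith, y, hy, hyM, by linarith⟩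

include hw ha hab hU hW hK in
theorem false_of_small_clique : False := by
  classical
  have ha' : (2 : ℝ) ≤ a := by exact_mod_cast ha
  have hab' : (a : ℝ) ≤ b := by exact_mod_cast hab
  set D : Finset V := univ.filter fun v => 1 / 2 < w v with hD
  have hDm : ∀ v, v ∈ D ↔ 1 / 2 < w v := fun v => by simp [hD]
  have hDa : D.card ≤ a := card_heavy hw hK
  have hDw : ∑ v ∈ D, w v ≤ D.card := by
    have h4 : ∑ v ∈ D, w v ≤ ∑ _v ∈ D, (1 : ℝ) := sum_le_sum fun v _ => hw.le_one v
    rwa [sum_const, nsmul_eq_mul, mul_one] at h4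
  have hDc : ∑ v ∈ D, w v + ∑ v ∈ Dᶜ, w v = ∑ v, w v := sum_add_sum_compl D w
  have hDa' : (D.card : ℝ) ≤ a := by exact_mod_cast hDa
  -- the heaviest vertex outside of `D`
  have hne : (Dᶜ).Nonempty := by
    by_contra h
    rw [not_nonempty_iff_eq_empty] at h
    rw [h, sum_empty] at hDc
    linarith
  obtain ⟨e, heD, hemax⟩ := exists_max_image Dᶜ w hne
  have he : w e ≤ 1 / 2 := by
    rw [mem_compl, hDm] at heD
    exact not_lt.1 heD
  have hmax : ∀ v, w v ≤ 1 / 2 → w v ≤ w e := fun v hv =>
    hemax v (by rw [mem_compl, hDm]; exact not_lt.2 hv)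
  have hpos : 0 < w e := by
    by_contra h
    have h1 : ∑ v ∈ Dᶜ, w v ≤ 0 := sum_nonpos fun v hv => (hemax v hv).trans (not_lt.1 h)
    linarith
  have hhalf := weight_eq_half hw ha hab hU hW hK he hpos hmax
  have hmax' : ∀ x, w x = 1 / 2 → ∀ v, w v ≤ 1 / 2 → w v ≤ w x := fun x hx v hv => by
    rw [hx]; exact hv
  have hadjD : ∀ x, w x = 1 / 2 → ∀ d ∈ D, G.Adj x d := fun x hx d hd => by
    have h1 := (hDm d).1 hd
    refine hw.adj (fun h => ?_) (by linarith)
    rw [← h, hx] at h1
    exact lt_irrefl _ h1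
  have hDcl : Cl G D := fun u hu v hv huv =>
    hw.adj huv (by linarith [(hDm u).1 hu, (hDm v).1 hv])
  have heD' : e ∉ D := mem_compl.1 heD
  have hDa1 : D.card + 1 ≤ a := by
    have := hK _ (clique_insert hDcl (hadjD e hhalf))
    rwa [card_insert_of_notMem heD'] at this
  have hDa1' : (D.card : ℝ) + 1 ≤ a := by exact_mod_cast hDa1
  set N : Finset V := univ.filter fun v => G.Adj e v with hN
  have hNm : ∀ v, v ∈ N ↔ G.Adj e v := fun v => by simp [hN]
  have hDN : D ⊆ N := fun d hd => (hNm d).2 (hadjD e hhalf d hd)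
  have hNw := weight_adj hw ha hU hW hK he hpos hmax hNm
  rw [hhalf] at hNw
  have hlight : ∀ v, v ∉ D → w v ≤ 1 / 2 := fun v hv => not_lt.1 fun h => hv ((hDm v).2 h)
  -- heavy vertices have weight one
  have hD1 : ∀ d ∈ D, w d = 1 := by
    intro d hd
    by_contra hd1
    have hd2 : w d < 1 := lt_of_le_of_ne (hw.le_one d) hd1
    have hd3 := (hDm d).1 hd
    have h1 : ∑ v ∈ D.erase d, w v ≤ (a : ℝ) - 2 := by
      have h4 : ∑ v ∈ D.erase d, w v ≤ ∑ _v ∈ D.erase d, (1 : ℝ) :=
        sum_le_sum fun v _ => hw.le_one v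
      rw [sum_const, nsmul_eq_mul, mul_one] at h4
      have h5 : (D.erase d).card + 2 ≤ a := by
        rw [card_erase_of_mem hd]
        have := card_pos.2 ⟨d, hd⟩
        omega
      have h6 : ((D.erase d).card : ℝ) + 2 ≤ a := by exact_mod_cast h5
      linarith
    have h2 := add_sum_erase N w (hDN hd)
    obtain ⟨M, hM1, hM2, hM3, y, hy, hyM, hy1⟩ := crossing_half hw ha hab hU hW hK hhalf hNm
      (A := D.erase d) (B := N.erase d) (erase_subset_erase _ hDN) (erase_subset _ _)
      (by linarith) (by linarith) (fun v hv hv' => hlight v fun h =>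
        hv' (mem_erase.2 ⟨(mem_erase.1 hv).1, h⟩))
    have h3 : ∃ r ∈ M, r ∉ D ∧ 0 < w r := by
      by_contra hcon
      push Not at hcon
      have h4 : ∑ v ∈ M, w v ≤ ∑ v ∈ D.erase d, w v := by
        rw [← sum_sdiff hM1]
        have h5 : ∑ v ∈ M \ D.erase d, w v ≤ 0 := sum_nonpos fun v hv => by
          have h6 := mem_sdiff.1 hv
          refine hcon v h6.1 fun h => h6.2 (mem_erase.2 ⟨?_, h⟩)
          exact (mem_erase.1 (hM2 h6.1)).1
        linarith
      linarith
    obtain ⟨r, hrM, hrD, hr0⟩ := h3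
    have hr1 := hlight r hrD
    have h4 := add_sum_erase M w hrM
    have hdM : d ∉ M := fun h => (mem_erase.1 (hM2 h)).1 rfl
    have hMN : ∀ v ∈ M, G.Adj e v := fun v hv => (hNm v).1 (mem_erase.1 (hM2 hv)).2
    rcases eq_or_lt_of_le hr1 with hr2 | hr2
    · have h5 : d ∉ M.erase r := fun h => hdM (mem_erase.1 h).2
      have h6 := window hw ha hU hW (e := e) (A := insert d (M.erase r)) (fun v hv => by
        rcases mem_insert.1 hv with h | h
        · rw [h]; exact (hNm d).1 (hDN hd)
        · exact hMN v (mem_erase.1 h).2) (by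
          rw [sum_insert h5]; linarith)
      rw [sum_insert h5] at h6
      linarith
    · have h5 : y ∉ M.erase r := fun h => hyM (mem_erase.1 h).2
      have h6 := window hw ha hU hW (e := e) (A := insert y (M.erase r)) (fun v hv => by
        rcases mem_insert.1 hv with h | h
        · rw [h]; exact (hNm y).1 (mem_erase.1 hy).2
        · exact hMN v (mem_erase.1 h).2) (by
          rw [sum_insert h5]; linarith)
      rw [sum_insert h5] at h6
      linarith
  -- a neighbour of weight `1/2`
  obtain ⟨M, hM1, hM2, hM3, y, hy, hyM, hy1⟩ := crossing_half hw ha hab hU hW hK hhalf hNm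
    (A := D) (B := N) hDN (Subset.refl _) (by linarith) (by linarith)
    (fun v _ hv' => hlight v hv')
  have hyD : y ∉ D := fun h => by
    have := (hDm y).1 h
    linarith
  have hey : G.Adj e y := (hNm y).1 hy
  -- light neighbours have weight zero
  have hzero : ∀ v ∈ N, v ∉ D → w v ≠ 1 / 2 → w v = 0 := by
    intro v hv hvD hv1
    by_contra hv0
    have hv2 : w v < 1 / 2 := lt_of_le_of_ne (hlight v hvD) hv1
    have hv3 : 0 < w v := lt_of_le_of_ne (hw.nonneg v) (Ne.symm hv0)
    have h2 := add_sum_erase N w hv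
    obtain ⟨M', hM1', hM2', hM3', -⟩ := crossing_half hw ha hab hU hW hK hhalf hNm
      (A := D) (B := N.erase v) (fun u hu => mem_erase.2 ⟨fun h => hvD (h ▸ hu), hDN hu⟩)
      (erase_subset _ _) (by linarith) (by linarith)
      (fun u _ hu' => hlight u hu')
    have h5 : v ∉ M' := fun h => (mem_erase.1 (hM2' h)).1 rfl
    have h6 := window hw ha hU hW (e := e) (A := insert v M') (fun u hu => by
      rcases mem_insert.1 hu with h | h
      · rw [h]; exact (hNm v).1 hv
      · exact (hNm u).1 (mem_erase.1 (hM2' h)).2) (by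
        rw [sum_insert h5]; linarith)
    rw [sum_insert h5] at h6
    linarith
  -- the neighbours of weight `1/2`
  set NE : Finset V := N.filter fun v => w v = 1 / 2 with hNE
  have hNEw : ∑ v ∈ N, w v = D.card + NE.card / 2 := by
    have h1 : ∑ v ∈ D, w v = D.card := by
      rw [sum_congr rfl hD1, sum_const, nsmul_eq_mul, mul_one]
    have h2 : ∑ v ∈ NE, w v = NE.card / 2 := by
      rw [sum_congr rfl (fun v hv => (mem_filter.1 hv).2), sum_const, nsmul_eq_mul]
      ring
    have h3 : Disjoint D NE := disjoint_left.2 fun v hv hv' => by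
      have h4 := (hDm v).1 hv
      rw [(mem_filter.1 hv').2] at h4
      exact lt_irrefl _ h4
    rw [← h1, ← h2, ← sum_union h3]
    symm
    refine sum_subset (union_subset hDN (filter_subset _ _)) fun v hv hv' => ?_
    rw [mem_union, not_or] at hv'
    exact hzero v hv hv'.1 fun h => hv'.2 (mem_filter.2 ⟨hv, h⟩)
  have hNEc : 2 * b + a ≤ NE.card + 2 * D.card + 1 := by
    have h1 : (2 * b + a : ℝ) ≤ NE.card + 2 * D.card + 1 := by linarith
    exact_mod_cast h1
  -- non-neighbours of `y`
  set Z : Finset V := univ.filter fun z => w z = 1 / 2 ∧ z ≠ y ∧ ¬ G.Adj y z with hZ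
  have hZw := weight_nonadj hw ha hU hW hK (e := y) hy1.le (by rw [hy1]; norm_num)
    (hmax' y hy1) (Z := Z) (fun z hz => (mem_filter.1 hz).2.2)
  have hZc : Z.card ≤ a := by
    rw [sum_congr rfl (fun v hv => (mem_filter.1 hv).2.1), sum_const, nsmul_eq_mul, hy1] at hZw
    have h1 : (Z.card : ℝ) ≤ a := by linarith
    exact_mod_cast h1
  set C : Finset V := NE.filter fun v => G.Adj y v with hC
  have hCc : NE.card ≤ C.card + 1 + a := by
    have h1 : NE ⊆ C ∪ ({y} ∪ Z) := by
      intro v hv
      have h2 := (mem_filter.1 hv).2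
      simp only [mem_union, mem_singleton, hC, hZ, mem_filter, mem_univ, true_and]
      tauto
    have h2 := (card_le_card h1).trans (card_union_le _ _)
    have h3 := card_union_le ({y} : Finset V) Z
    rw [card_singleton] at h3
    omega
  by_cases hp : D.card + 2 ≤ a
  · obtain ⟨A, hAC, hAc⟩ := exists_subset_card_eq (s := C) (n := 2 * a - 3 - 2 * D.card)
      (by omega)
    have hAw : ∀ v ∈ A, w v = 1 / 2 := fun v hv => (mem_filter.1 (mem_filter.1 (hAC hv)).1).2
    have hAN : ∀ v ∈ A, G.Adj e v := fun v hv =>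
      (hNm v).1 (mem_filter.1 (mem_filter.1 (hAC hv)).1).1
    have hAy : ∀ v ∈ A, G.Adj y v := fun v hv => (mem_filter.1 (hAC hv)).2
    have hDA : Disjoint D A := disjoint_left.2 fun v hv hv' => by
      have h4 := (hDm v).1 hv
      rw [hAw v hv'] at h4
      exact lt_irrefl _ h4
    have hw1 : ∑ v ∈ D ∪ A, w v = (a : ℝ) - 3 / 2 := by
      rw [sum_union hDA, sum_congr rfl hD1, sum_congr rfl hAw, sum_const, sum_const, hAc,
        nsmul_eq_mul, nsmul_eq_mul]
      have h5 : ((2 * a - 3 - 2 * D.card : ℕ) : ℝ) = 2 * a - 3 - 2 * D.card := by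
        have h6 : (2 * a - 3 - 2 * D.card) + 3 + 2 * D.card = 2 * a := by omega
        have h7 : ((2 * a - 3 - 2 * D.card : ℕ) : ℝ) + 3 + 2 * D.card = 2 * a := by
          exact_mod_cast h6
        linarith
      rw [h5]
      ring
    have hadj1 : ∀ u ∈ D ∪ A, G.Adj y u := fun u hu => by
      rcases mem_union.1 hu with h | h
      · exact hadjD y hy1 u h
      · exact hAy u h
    have hadj2 : ∀ u ∈ insert y (D ∪ A), G.Adj e u := fun u hu => by
      rcases mem_insert.1 hu with h | h
      · rw [h]; exact hey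
      · rcases mem_union.1 h with h | h
        · exact hadjD e hhalf u h
        · exact hAN u h
    have h8 : ¬ Col G (insert e (insert y (D ∪ A))) a := by
      intro h9
      have h10 : a = (a - 2) + 1 + 1 := by omega
      rw [h10] at h9
      have h11 := hw.sum_le (col_of_insert_full hadj1 (col_of_insert_full hadj2 h9))
      rw [hw1, Nat.cast_sub ha] at h11
      push_cast at h11
      linarith
    have h9 := le_weight hw hU hW h8
    rw [sum_insert (fun h => G.loopless.irrefl _ (hadj2 e h)),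
      sum_insert (fun h => G.loopless.irrefl _ (hadj1 y h)), hw1, hhalf, hy1] at h9
    linarith
  · have h1 := hK (insert e (insert y D)) (clique_insert (clique_insert hDcl (hadjD y hy1))
      (fun u hu => by
        rcases mem_insert.1 hu with h | h
        · rw [h]; exact hey
        · exact hadjD e hhalf u h))
    rw [card_insert_of_notMem, card_insert_of_notMem hyD] at h1
    · omega
    · intro h
      rcases mem_insert.1 h with h | h
      · exact hey.ne h
      · exact heD' h

end unsplit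

/-- The case `2 ≤ a`. -/
theorem false_of_weight {a b : ℕ} (hw : FracClique G w) (ha : 2 ≤ a) (hab : a ≤ b)
    (hU : ∀ S : Finset V, Col G S a ∨ Col G Sᶜ b) (hG : ¬ Col G univ (a + b))
    (hfree : ∀ K, Cl G K → K.card ≠ a + b + 1) (hW : (a : ℝ) + b ≤ ∑ v, w v) : False := by
  by_cases h : ∀ K, Cl G K → K.card ≤ a
  · exact false_of_small_clique hw ha hab hU hW h
  · push Not at h
    obtain ⟨K, hK, hKc⟩ := h
    obtain ⟨K₀, hK₀, hK₀c⟩ := exists_subset_card_eq (s := K) (n := a + 1) (by omega)
    have h1 := weight_le (a := a) (b := b) (fun S hS hSc =>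
      (hU S).resolve_left (not_col_of_clique hS (by omega))) hG hw hfree (hK.mono hK₀) hK₀c
    have ha' : (2 : ℝ) ≤ a := by exact_mod_cast ha
    linarith

end Pool.Agent.helper49.ELT
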